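import Pool.Agent.Lib.MP_9ff3e7_ag.Sc.Set

/-! Affine charts inside the function field. -/

set_option autoImplicit false

namespace Pool.Agent.Lib.MP_9ff3e7_ag.Sc

open AlgebraicGeometry CategoryTheory Set F

variable {X : Scheme.{0}} [IsIntegral X] {s : X ⟶ Spec (CommRingCat.of ℂ)}
  [Algebra ℂ X.functionField]

theorem Cst.chart (h : Cst s) [Smooth s] {W : X.Opens} (hW : IsAffineOpen W) [Nonempty W] :
    ∃ B : Subalgebra ℂ X.functionField, B.FG ∧ Algebra.FormallySmooth ℂ B ∧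
      (∀ z : X.functionField, ∃ c ∈ B, c ≠ 0 ∧ c * z ∈ B) ∧
      (∀ x ∈ W, B ≤ locAt x) ∧
      (∀ x ∈ W, ∀ r ∈ locAt x, ∃ c ∈ B, Un (locAt x) c ∧ c * r ∈ B) ∧
      (∀ y : B →ₐ[ℂ] ℂ, ∃ x ∈ W, ∀ c : B, Un (locAt x) c ↔ y c ≠ 0) ∧
      ∀ x ∈ W, ∀ V : X.Opens, x ∈ V → ∃ c ∈ B, Un (locAt x) c ∧
        ∀ x' ∈ W, Un (locAt x') c → x' ∈ V := by
  let _ := ((Scheme.ΓSpecIso (.of ℂ)).inv ≫ s.appLE ⊤ W le_top).hom.toAlgebra
  have : IsScalarTower ℂ Γ(X, W) X.functionField := .of_algebraMap_eq fun c => (h.germ W c).symm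
  have := functionField_isFractionRing_of_isAffineOpen X W hW
  let j := IsScalarTower.toAlgHom ℂ Γ(X, W) X.functionField
  have hj : Function.Injective j := X.germToFunctionField_injective W
  have hs : Algebra.Smooth ℂ Γ(X, W) :=
    RingHom.Smooth.respectsIso.2 _ (Scheme.ΓSpecIso (.of ℂ)).symm.commRingCatIsoToRingEquiv
      (s.smooth_appLE (isAffineOpen_top _) hW le_top)
  have un : ∀ x ∈ W, ∀ t : Γ(X, W), Un (locAt x) (j t) ↔ x ∈ X.basicOpen t :=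
    fun x hx t => h.un_germ hx t
  refine ⟨j.range, ?_, .of_equiv (AlgEquiv.ofInjective j hj), fun z => ?_, ?_,
    fun x hx r hr => ?_, fun y => ?_, fun x hx V hV => ?_⟩
  · rw [← Algebra.map_top]
    exact Algebra.FiniteType.out.map _
  · obtain ⟨a, b, hb, rfl⟩ := IsFractionRing.div_surjective (A := Γ(X, W)) z
    have h0 : j b ≠ 0 := fun e => nonZeroDivisors.ne_zero hb (hj (e.trans (map_zero j).symm))
    exact ⟨j b, ⟨b, rfl⟩, h0, a, (mul_div_cancel₀ _ h0).symm⟩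
  · rintro x hx _ ⟨t, rfl⟩
    exact germ_mem hx t
  · obtain ⟨t, rfl⟩ := h.mem_locAt.1 hr
    let := X.presheaf.algebra_section_stalk ⟨x, hx⟩
    have := hW.isLocalization_stalk ⟨x, hx⟩
    obtain ⟨⟨a, b⟩, e⟩ := IsLocalization.surj (hW.primeIdealOf ⟨x, hx⟩).asIdeal.primeCompl t
    have e' : ∀ u : Γ(X, W), algebraMap (X.presheaf.stalk x) X.functionField
        (algebraMap Γ(X, W) (X.presheaf.stalk x) u) = j u :=
      fun u => X.algebraMap_germ_eq_germToFunctionField hx u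
    refine ⟨j b, ⟨b, rfl⟩, ?_, a, ?_⟩
    · rw [← e', h.un_iff]
      exact IsLocalization.map_units _ b
    · change j a = _
      rw [← e', ← e', ← map_mul, mul_comm, e]
  · let y' := y.comp j.rangeRestrict
    let p : PrimeSpectrum Γ(X, W) := ⟨RingHom.ker y', RingHom.ker_isPrime y'⟩
    have hx : hW.fromSpec p ∈ W := by
      rw [← SetLike.mem_coe, ← hW.range_fromSpec]
      exact ⟨p, rfl⟩
    refine ⟨hW.fromSpec p, hx, ?_⟩
    rintro ⟨_, t, rfl⟩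
    refine (un _ hx t).trans ?_
    change p ∈ hW.fromSpec ⁻¹ᵁ X.basicOpen t ↔ _
    rw [hW.fromSpec_preimage_basicOpen]
    exact Iff.rfl
  · obtain ⟨f, h1, h2⟩ := hW.exists_basicOpen_le ⟨x, hV⟩ hx
    exact ⟨j f, ⟨f, rfl⟩, (un x hx f).2 h2, fun x' hx' e => h1 ((un x' hx' f).1 e)⟩

end Pool.Agent.Lib.MP_9ff3e7_ag.Sc
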