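import Pool.Agent.Lib.MP_9ff3e7_ag.Sc.Set

/-! The homogeneous coordinate ring of a finite set of rational functions. -/

set_option autoImplicit false

namespace Pool.Agent.Lib.MP_9ff3e7_ag.Sc

open AlgebraicGeometry CategoryTheory Set F

variable {K : Type} [Field K] [Algebra ℂ K]

section ring

open Polynomial

variable (L : Submodule ℂ K)

/-- the ring `⊕ L ^ m t ^ m` inside `K[t]` -/
def ringS : Subalgebra ℂ K[X] where
  carrier := {p | ∀ m, p.coeff m ∈ L ^ m}
  mul_mem' {p q} hp hq m := by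
    rw [coeff_mul]
    refine Submodule.sum_mem _ fun c hc => ?_
    rw [← Finset.HasAntidiagonal.mem_antidiagonal.1 hc, pow_add]
    exact Submodule.mul_mem_mul (hp _) (hq _)
  add_mem' {p q} hp hq m := by
    rw [coeff_add]
    exact add_mem (hp m) (hq m)
  algebraMap_mem' c m := by
    rw [Polynomial.algebraMap_apply, coeff_C]
    split_ifs with h
    · subst h
      rw [pow_zero]
      exact Submodule.algebraMap_mem c
    · exact zero_mem _

/-- the grading -/
def ringA (m : ℕ) : Submodule ℂ (ringS L) where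
  carrier := {p | ∀ i, i ≠ m → p.1.coeff i = 0}
  add_mem' {p q} hp hq i hi := by
    rw [Subalgebra.coe_add, coeff_add, hp i hi, hq i hi, add_zero]
  zero_mem' i _ := rfl
  smul_mem' c p hp i hi := by
    rw [Subalgebra.coe_smul, coeff_smul, hp i hi, smul_zero]

variable {L}

/-- the homogeneous element `c t ^ m` -/
noncomputable def ringM (m : ℕ) (c : K) (hc : c ∈ L ^ m) : ringS L :=
  ⟨monomial m c, fun i => by
    rw [coeff_monomial]
    split_ifs with h
    · exact h ▸ hc
    · exact zero_mem _⟩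

theorem ringM_mem (m : ℕ) (c : K) (hc : c ∈ L ^ m) : ringM m c hc ∈ ringA L m :=
  fun _ hi => coeff_monomial_of_ne _ hi

theorem ring_eq {m : ℕ} {p : ringS L} (hp : p ∈ ringA L m) :
    p.1 = monomial m (p.1.coeff m) := by
  ext i
  rw [coeff_monomial]
  split_ifs with h
  · rw [h]
  · exact hp i (Ne.symm h)

theorem ring_sum (p : ringS L) : ∑ m ∈ p.1.support, ringM m (p.1.coeff m) (p.2 m) = p := by
  apply Subtype.ext
  rw [AddSubmonoidClass.coe_finsetSum]
  exact p.1.as_sum_support.symm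

variable (L)

theorem ring_monoid : SetLike.GradedMonoid (ringA L) where
  one_mem i hi := by
    rw [Subalgebra.coe_one, coeff_one, if_neg hi]
  mul_mem {i j p q} hp hq l hl := by
    rw [Subalgebra.coe_mul, ring_eq hp, ring_eq hq, monomial_mul_monomial,
      coeff_monomial_of_ne _ hl]

theorem ring_coeff (x : DirectSum ℕ fun m => ringA L m) (i : ℕ) :
    (DirectSum.coeAddMonoidHom (ringA L) x).1.coeff i = (x i).1.1.coeff i := by
  induction x using DirectSum.induction_on with
  | zero => simp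
  | of j y =>
    rw [DirectSum.coeAddMonoidHom_of]
    by_cases h : i = j
    · subst h
      rw [DirectSum.of_eq_same]
    · rw [DirectSum.of_eq_of_ne _ _ _ h, y.2 i h]
      rfl
  | add x y hx hy =>
    rw [map_add, Subalgebra.coe_add, coeff_add, hx, hy]
    simp

theorem ring_internal : DirectSum.IsInternal (ringA L) := by
  constructor
  · intro x y h
    refine DFinsupp.ext fun i => Subtype.ext (Subtype.ext ?_)
    rw [ring_eq (x i).2, ring_eq (y i).2, ← ring_coeff, ← ring_coeff, h]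
  · intro p
    rw [← ring_sum p]
    refine ⟨∑ m ∈ p.1.support, DirectSum.of (fun m => ringA L m) m ⟨_, ringM_mem m _ (p.2 m)⟩, ?_⟩
    rw [map_sum]
    simp only [DirectSum.coeAddMonoidHom_of]

/-- the graded algebra structure -/
@[reducible] noncomputable def ringGr : GradedAlgebra (ringA L) :=
  { ring_monoid L, (ring_internal L).chooseDecomposition with }

/-- dehomogenisation -/
noncomputable def ringEv : ringS L →ₐ[ℂ] K :=
  ((aeval (R := K) (1 : K)).restrictScalars ℂ).comp (ringS L).val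

variable {L}

theorem ringEv_eq {m : ℕ} {p : ringS L} (hp : p ∈ ringA L m) : ringEv L p = p.1.coeff m := by
  change aeval (1 : K) p.1 = _
  conv_lhs => rw [ring_eq hp]
  simp

theorem ringEv_M (m : ℕ) (c : K) (hc : c ∈ L ^ m) : ringEv L (ringM m c hc) = c := by
  rw [ringEv_eq (ringM_mem m c hc)]
  exact coeff_monomial_same _ _

theorem ring_inj {m : ℕ} {p : ringS L} (hp : p ∈ ringA L m) (h : ringEv L p = 0) : p = 0 :=
  Subtype.ext (by rw [ring_eq hp, ← ringEv_eq hp, h]; simp)

theorem ring_top {G : Set K} (hG : L = Submodule.span ℂ G) (T : Subalgebra ℂ (ringS L))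
    (h : ∀ g ∈ G, ∃ p ∈ T, p.1 = monomial 1 g) : T = ⊤ := by
  have one : ∀ c ∈ Submodule.span ℂ G, ∃ p ∈ T, p.1 = monomial 1 c := by
    intro c hc
    induction hc using Submodule.span_induction with
    | mem x hx => exact h x hx
    | zero => exact ⟨0, zero_mem _, by simp⟩
    | add x y _ _ hx hy =>
      obtain ⟨p, hp, e⟩ := hx
      obtain ⟨q, hq, e'⟩ := hy
      exact ⟨p + q, add_mem hp hq, by rw [Subalgebra.coe_add, e, e', map_add]⟩
    | smul a x _ hx =>
      obtain ⟨p, hp, e⟩ := hx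
      exact ⟨a • p, T.smul_mem hp a, by rw [Subalgebra.coe_smul, e, smul_monomial]⟩
  have key : ∀ (m : ℕ) (c : K), c ∈ L ^ m → ∃ p ∈ T, p.1 = monomial m c := by
    intro m
    induction m with
    | zero =>
      intro c hc
      rw [pow_zero, Submodule.mem_one] at hc
      obtain ⟨a, rfl⟩ := hc
      exact ⟨algebraMap ℂ _ a, Subalgebra.algebraMap_mem _ a, rfl⟩
    | succ m ih =>
      intro c hc
      rw [pow_succ] at hc
      refine Submodule.mul_induction_on hc (fun x hx y hy => ?_) fun x y hx hy => ?_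
      · obtain ⟨p, hp, e⟩ := ih x hx
        obtain ⟨q, hq, e'⟩ := one y (hG ▸ hy)
        exact ⟨p * q, mul_mem hp hq, by rw [Subalgebra.coe_mul, e, e', monomial_mul_monomial]⟩
      · obtain ⟨p, hp, e⟩ := hx
        obtain ⟨q, hq, e'⟩ := hy
        exact ⟨p + q, add_mem hp hq, by rw [Subalgebra.coe_add, e, e', map_add]⟩
  rw [eq_top_iff]
  intro p _
  rw [← ring_sum p]
  refine Subalgebra.sum_mem _ fun m _ => ?_
  obtain ⟨q, hq, e⟩ := key m _ (p.2 m)
  have : ringM m _ (p.2 m) = q := Subtype.ext e.symm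
  rwa [this]

variable (L)

/-- the fraction field of the ring inside `K(t)` -/
noncomputable def ringI : FractionRing (ringS L) →ₐ[ℂ] FractionRing K[X] :=
  IsFractionRing.liftAlgHom
    (g := (IsScalarTower.toAlgHom ℂ K[X] (FractionRing K[X])).comp (ringS L).val)
    ((IsFractionRing.injective K[X] (FractionRing K[X])).comp Subtype.val_injective)

/-- the constants of `K(t)` -/
noncomputable def ringK (K : Type) [Field K] [Algebra ℂ K] : K →ₐ[ℂ] FractionRing K[X] :=
  (IsScalarTower.toAlgHom ℂ K[X] (FractionRing K[X])).comp (IsScalarTower.toAlgHom ℂ K K[X])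

variable {L}

theorem ringI_hom {m : ℕ} {p : ringS L} (hp : p ∈ ringA L m) :
    ringI L (algebraMap _ _ p) =
      ringK K (ringEv L p) * algebraMap K[X] (FractionRing K[X]) X ^ m := by
  rw [ringI, IsFractionRing.liftAlgHom_apply, IsFractionRing.lift_algebraMap, ringEv_eq hp]
  change algebraMap K[X] (FractionRing K[X]) p.1 =
    algebraMap K[X] (FractionRing K[X]) (C (p.1.coeff m)) * _
  rw [← map_pow, ← map_mul, C_mul_X_pow_eq_monomial, ← ring_eq hp]

theorem ringI_div {m : ℕ} {p q : ringS L} (hp : p ∈ ringA L m) (hq : q ∈ ringA L m) :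
    ringI L (algebraMap _ _ p / algebraMap _ _ q) = ringK K (ringEv L p / ringEv L q) := by
  have h : algebraMap K[X] (FractionRing K[X]) X ^ m ≠ 0 :=
    pow_ne_zero _ ((map_ne_zero_iff _ (IsFractionRing.injective _ _)).2 X_ne_zero)
  rw [map_div₀, ringI_hom hp, ringI_hom hq, map_div₀, mul_div_mul_right _ _ h]

variable (L)

theorem ring_exists : ∃ e : Fn (ringA L) →ₐ[ℂ] K, ∀ z, ringK K (e z) = ringI L z := by
  have h : Fn (ringA L) ≤ (ringK K).fieldRange.comap (ringI L) := by
    refine IntermediateField.adjoin_le_iff.2 ?_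
    rintro y ⟨j, a, ha, b, hb, rfl⟩
    exact ⟨_, (ringI_div ha hb).symm⟩
  let φ := AlgEquiv.ofInjective (ringK K) (ringK K).injective
  refine ⟨(φ.symm : _ →ₐ[ℂ] K).comp (((ringI L).comp (Fn (ringA L)).val).codRestrict
    (ringK K).range fun z => h z.2), fun z => ?_⟩
  exact congrArg Subtype.val (φ.apply_symm_apply ⟨_, h z.2⟩)

end ring

theorem exists_cone (G : Finset K) {s : K} (hs : s ∈ G) (s0 : s ≠ 0)
    (hf : ∀ z : K, ∃ c ∈ Algebra.adjoin ℂ ((fun g => g / s) '' (G : Set K)), c ≠ 0 ∧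
      c * z ∈ Algebra.adjoin ℂ ((fun g => g / s) '' (G : Set K))) :
    ∃ (S : Type) (_ : CommRing S) (_ : IsDomain S) (_ : Algebra ℂ S) (𝒜 : ℕ → Submodule ℂ S)
      (_ : GradedAlgebra 𝒜) (c : S →ₐ[ℂ] K) (e : Fn 𝒜 ≃ₐ[ℂ] K), Cone G 𝒜 c e := by
  classical
  let L : Submodule ℂ K := Submodule.span ℂ (G : Set K)
  have hG : ∀ g ∈ G, g ∈ L ^ 1 := fun g hg => by
    rw [pow_one]
    exact Submodule.subset_span hg
  obtain ⟨e, he⟩ := ring_exists L
  have hd : ∀ j, ∀ b ∈ ringA L j, ∀ b' ∈ ringA L j, ∀ z : Fn (ringA L),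
      (z : FractionRing (ringS L)) = algebraMap _ (FractionRing (ringS L)) b /
        algebraMap _ (FractionRing (ringS L)) b' → e z = ringEv L b / ringEv L b' :=
    fun j b hb b' hb' z hz => (ringK K).injective
      ((he z).trans ((congrArg (ringI L) hz).trans (ringI_div hb hb')))
  have hr : Algebra.adjoin ℂ ((fun g => g / s) '' (G : Set K)) ≤ e.range := by
    refine Algebra.adjoin_le ?_
    rintro _ ⟨g, hg, rfl⟩
    refine ⟨⟨_, IntermediateField.subset_adjoin _ _ ⟨1, _, ringM_mem 1 g (hG g hg), _,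
      ringM_mem 1 s (hG s hs), rfl⟩⟩, ?_⟩
    exact (hd 1 _ (ringM_mem 1 g (hG g hg)) _ (ringM_mem 1 s (hG s hs)) _ rfl).trans
      (by rw [ringEv_M, ringEv_M])
  have hs' : Function.Surjective e := by
    intro z
    obtain ⟨c, hc, c0, hz⟩ := hf z
    obtain ⟨a, ha⟩ := hr hz
    obtain ⟨b, hb⟩ := hr hc
    refine ⟨a / b, ?_⟩
    rw [map_div₀, show e a = c * z from ha, show e b = c from hb, mul_div_cancel_left₀ _ c0]
  refine ⟨ringS L, inferInstance, inferInstance, inferInstance, ringA L, ringGr L, ringEv L,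
    AlgEquiv.ofBijective e ⟨e.injective, hs'⟩, ⟨?_, ?_, fun j b hb h => ring_inj hb h, hd⟩⟩
  · refine ⟨G.attach.image fun g => ringM 1 g.1 (hG g.1 g.2), ?_, ?_⟩
    · intro b hb
      obtain ⟨g, -, rfl⟩ := Finset.mem_image.1 hb
      exact ringM_mem _ _ _
    · refine ring_top (G := (G : Set K)) rfl _ fun g hg => ⟨ringM 1 g (hG g hg), ?_, rfl⟩
      exact Algebra.subset_adjoin (Finset.mem_coe.2
        (Finset.mem_image.2 ⟨⟨g, hg⟩, Finset.mem_attach _ _, rfl⟩))
  · apply le_antisymm
    · rintro _ ⟨p, hp, rfl⟩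
      have := p.2 1
      rw [pow_one] at this
      exact (ringEv_eq hp).symm ▸ this
    · intro c hc
      have h1 : c ∈ L ^ 1 := by rwa [pow_one]
      exact ⟨_, ringM_mem 1 c h1, ringEv_M 1 c h1⟩

end Pool.Agent.Lib.MP_9ff3e7_ag.Sc
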