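import Pool.Agent.Lib.MP_9ff3e7_ag.Sc.Set

/-! Transport of canonical stalks along isomorphisms and localisations. -/

set_option autoImplicit false

namespace Pool.Agent.Lib.MP_9ff3e7_ag.Sc

open AlgebraicGeometry CategoryTheory Set F

variable {K K' : Type} [Field K] [Algebra ℂ K] [Field K'] [Algebra ℂ K']

theorem trans_wedge {M M' : Type} [AddCommGroup M] [Module K M] [AddCommGroup M'] [Module K' M']
    (e : K →+* K') (φ : M →+ M') (hφ : ∀ a w, φ (a • w) = e a • φ w) (n : ℕ) :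
    ∃ Φ : ⋀[K]^n M →+ ⋀[K']^n M', (∀ (a : K) ω, Φ (a • ω) = e a • Φ ω) ∧
      ∀ v, Φ (wedge K v) = wedge K' fun i => φ (v i) := by
  letI : Module K (⋀[K']^n M') := Module.compHom _ e
  let f : M [⋀^Fin n]→ₗ[K] (⋀[K']^n M') :=
    { toFun := fun v => exteriorPower.ιMulti K' n fun i => φ (v i)
      map_update_add' := fun v i x y => by
        have h : ∀ z, (fun j => φ (Function.update v i z j)) =
            Function.update (fun j => φ (v j)) i (φ z) := fun z =>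
          funext fun j => Function.apply_update (fun _ => φ) v i z j
        rw [h, h, h, map_add, AlternatingMap.map_update_add]
      map_update_smul' := fun v i c x => by
        have h : ∀ z, (fun j => φ (Function.update v i z j)) =
            Function.update (fun j => φ (v j)) i (φ z) := fun z =>
          funext fun j => Function.apply_update (fun _ => φ) v i z j
        rw [h, h, hφ, AlternatingMap.map_update_smul]
        rfl
      map_eq_zero_of_eq' := fun v i j h hij =>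
        (exteriorPower.ιMulti K' n).map_eq_zero_of_eq _ (i := i) (j := j) (congrArg φ h) hij }
  refine ⟨(exteriorPower.alternatingMapLinearEquiv f).toAddMonoidHom, fun a ω => ?_, fun v => ?_⟩
  · exact (exteriorPower.alternatingMapLinearEquiv f).map_smul a ω
  · exact exteriorPower.alternatingMapLinearEquiv_apply_ιMulti f v

theorem trans_omega (e : K →ₐ[ℂ] K') :
    ∃ φ : Ω[K⁄ℂ] →+ Ω[K'⁄ℂ], (∀ (a : K) w, φ (a • w) = e a • φ w) ∧
      ∀ f, φ (dK f) = dK (e f) := by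
  letI : Algebra K K' := e.toRingHom.toAlgebra
  haveI : IsScalarTower ℂ K K' := IsScalarTower.of_algebraMap_eq fun c => (e.commutes c).symm
  refine ⟨(KaehlerDifferential.map ℂ ℂ K K').toAddMonoidHom, fun a w => ?_, fun f => ?_⟩
  · exact ((KaehlerDifferential.map ℂ ℂ K K').map_smul a w).trans (algebraMap_smul K' a _).symm
  · exact KaehlerDifferential.map_D ℂ ℂ K K' f

theorem trans_map (e : K →ₐ[ℂ] K') (n : ℕ) :
    ∃ Φ : ⋀[K]^n (Ω[K⁄ℂ]) →+ ⋀[K']^n (Ω[K'⁄ℂ]), (∀ (a : K) ω, Φ (a • ω) = e a • Φ ω) ∧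
      ∀ f : Fin n → K, Φ (wedge K fun i => dK (f i)) = wedge K' fun i => dK (e (f i)) := by
  obtain ⟨φ, h1, h2⟩ := trans_omega e
  obtain ⟨Φ, h3, h4⟩ := trans_wedge (e : K →+* K') φ h1 n
  exact ⟨Φ, h3, fun f => by simp only [h4, h2]⟩

theorem trans_id {n : ℕ} (Θ : ⋀[K]^n (Ω[K⁄ℂ]) →+ ⋀[K]^n (Ω[K⁄ℂ]))
    (h1 : ∀ (a : K) ω, Θ (a • ω) = a • Θ ω)
    (h2 : ∀ f : Fin n → K, Θ (wedge K fun i => dK (f i)) = wedge K fun i => dK (f i))
    (ω : ⋀[K]^n (Ω[K⁄ℂ])) : Θ ω = ω := by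
  have hω : ω ∈ (⊤ : Submodule K (⋀[K]^n (Ω[K⁄ℂ]))) := trivial
  rw [← exteriorPower.ιMulti_span_of_span K n _
    (KaehlerDifferential.span_range_derivation ℂ K)] at hω
  induction hω using Submodule.span_induction with
  | mem x hx =>
    obtain ⟨v, hv, rfl⟩ := hx
    choose f hf using fun i => hv ⟨i, rfl⟩
    obtain rfl : (fun i => dK (f i)) = v := funext hf
    exact h2 f
  | zero => exact map_zero _
  | add x y _ _ hx hy => rw [map_add, hx, hy]
  | smul a x _ hx => rw [h1, hx]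

theorem trans_smul {n : ℕ} {R : Subalgebra ℂ K} {r : K} (hr : r ∈ R)
    {N : Submodule R (⋀[K]^n (Ω[K⁄ℂ]))} {η : ⋀[K]^n (Ω[K⁄ℂ])} (h : η ∈ N) : r • η ∈ N :=
  N.smul_mem ⟨r, hr⟩ h

theorem trans_gen {n : ℕ} {R : Subalgebra ℂ K} {f : Fin n → K} (hf : ∀ i, f i ∈ R) :
    (wedge K fun i => dK (f i)) ∈ stalk dK n R :=
  Submodule.subset_span ⟨f, hf, rfl⟩

theorem trans_genIn {n : ℕ} {R : Subalgebra ℂ K} {a : K} {ω : ⋀[K]^n (Ω[K⁄ℂ])} :
    GenIn dK n R a ω ↔ RegIn dK n R a ω ∧ ∀ f : Fin n → K, (∀ i, f i ∈ R) →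
      ∃ r ∈ R, (wedge K fun i => dK (f i)) = r • a • ω := by
  constructor
  · intro h
    refine ⟨?_, fun f hf => ?_⟩
    · unfold RegIn
      rw [h]
      exact Submodule.mem_span_singleton_self _
    · have h1 := trans_gen (n := n) hf
      rw [h, Submodule.mem_span_singleton] at h1
      obtain ⟨r, hr⟩ := h1
      exact ⟨r, r.2, hr.symm⟩
  · rintro ⟨h1, h2⟩
    refine le_antisymm (Submodule.span_le.2 ?_) ((Submodule.span_singleton_le_iff_mem _ _).2 h1)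
    rintro _ ⟨f, hf, rfl⟩
    obtain ⟨r, hr, e⟩ := h2 f hf
    rw [e]
    exact trans_smul hr (Submodule.mem_span_singleton_self _)

theorem trans_fwd {n : ℕ} (e : K →ₐ[ℂ] K') (Φ : ⋀[K]^n (Ω[K⁄ℂ]) →+ ⋀[K']^n (Ω[K'⁄ℂ]))
    (h1 : ∀ (a : K) ω, Φ (a • ω) = e a • Φ ω)
    (h2 : ∀ f : Fin n → K, Φ (wedge K fun i => dK (f i)) = wedge K' fun i => dK (e (f i)))
    (R : Subalgebra ℂ K) (a : K) (ω : ⋀[K]^n (Ω[K⁄ℂ])) :
    (RegIn dK n R a ω → RegIn dK n (R.map e) (e a) (Φ ω)) ∧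
      (GenIn dK n R a ω → GenIn dK n (R.map e) (e a) (Φ ω)) := by
  have key : ∀ η ∈ stalk dK n R, Φ η ∈ stalk dK n (R.map e) := by
    intro η hη
    induction hη using Submodule.span_induction with
    | mem x hx =>
      obtain ⟨f, hf, rfl⟩ := hx
      rw [h2]
      exact trans_gen fun i => ⟨f i, hf i, rfl⟩
    | zero => rw [map_zero]; exact zero_mem _
    | add x y _ _ hx hy => rw [map_add]; exact add_mem hx hy
    | smul r x _ hx =>
      rw [show r • x = (r : K) • x from rfl, h1]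
      exact trans_smul (R := R.map e) (Subalgebra.mem_map.2 ⟨r, r.2, rfl⟩) hx
  have reg : RegIn dK n R a ω → RegIn dK n (R.map e) (e a) (Φ ω) := fun h => by
    unfold RegIn
    rw [← h1]
    exact key _ h
  refine ⟨reg, fun h => ?_⟩
  rw [trans_genIn] at h ⊢
  refine ⟨reg h.1, fun g hg => ?_⟩
  choose f hf hfg using hg
  obtain ⟨r, hr, hh⟩ := h.2 f hf
  refine ⟨e r, ⟨r, hr, rfl⟩, ?_⟩
  rw [← h1, ← h1, ← hh, h2]
  exact congrArg _ (funext fun i => congrArg dK (hfg i).symm)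

theorem exists_trans (e : K ≃ₐ[ℂ] K') (n : ℕ) :
    ∃ Φ : ⋀[K]^n (Ω[K⁄ℂ]) → ⋀[K']^n (Ω[K'⁄ℂ]), ∀ (R : Subalgebra ℂ K) (a : K) (ω : ⋀[K]^n (Ω[K⁄ℂ])),
      (RegIn dK n R a ω ↔ RegIn dK n (R.map (e : K →ₐ[ℂ] K')) (e a) (Φ ω)) ∧
      (GenIn dK n R a ω ↔ GenIn dK n (R.map (e : K →ₐ[ℂ] K')) (e a) (Φ ω)) := by
  obtain ⟨Φ, h1, h2⟩ := trans_map (e : K →ₐ[ℂ] K') n
  obtain ⟨Ψ, h3, h4⟩ := trans_map (e.symm : K' →ₐ[ℂ] K) n
  have hid : ∀ ω, Ψ (Φ ω) = ω := trans_id (Ψ.comp Φ)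
    (fun a ω => by simp [h1, h3]) (fun f => by simp [h2, h4])
  refine ⟨Φ, fun R a ω => ?_⟩
  have f := trans_fwd _ Φ h1 h2 R a ω
  have b := trans_fwd _ Ψ h3 h4 (R.map (e : K →ₐ[ℂ] K')) (e a) (Φ ω)
  have hR : (R.map (e : K →ₐ[ℂ] K')).map (e.symm : K' →ₐ[ℂ] K) = R := by
    rw [Subalgebra.map_map, AlgEquiv.symm_comp, Subalgebra.map_id]
  have ha : (e.symm : K' →ₐ[ℂ] K) (e a) = a := e.symm_apply_apply a
  rw [hR, ha, hid] at b
  exact ⟨⟨f.1, b.1⟩, ⟨f.2, b.2⟩⟩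

theorem trans_mono {n : ℕ} {R R' : Subalgebra ℂ K} (hR : R ≤ R') {η : ⋀[K]^n (Ω[K⁄ℂ])}
    (h : η ∈ stalk dK n R) : η ∈ stalk dK n R' := by
  induction h using Submodule.span_induction with
  | mem x hx =>
    obtain ⟨f, hf, rfl⟩ := hx
    exact trans_gen fun i => hR (hf i)
  | zero => exact zero_mem _
  | add x y _ _ hx hy => exact add_mem hx hy
  | smul r x _ hx => exact trans_smul (hR r.2) hx

theorem RegIn.loc {n : ℕ} {R R' : Subalgebra ℂ K} {a a' : K} {ω : ⋀[K]^n (Ω[K⁄ℂ])}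
    (h : RegIn dK n R a ω) (hR : R ≤ R') (ha : Un R' (a / a')) : RegIn dK n R' a' ω := by
  have h0 : a ≠ 0 := fun h0 => ha.1 (by rw [h0, zero_div])
  have h1 : a' ≠ 0 := fun h0 => ha.1 (by rw [h0, div_zero])
  unfold RegIn
  rw [show a' = (a / a')⁻¹ * a by field_simp, mul_smul]
  exact trans_smul ha.2.2 (trans_mono hR h)

theorem trans_div {c : K} (hc : c ≠ 0) (f : K) :
    dK f = c⁻¹ • dK (c * f) + (-(f * c⁻¹)) • dK c := by
  unfold dK
  rw [Derivation.leibniz, smul_add, smul_smul, smul_smul, inv_mul_cancel₀ hc, one_smul, neg_smul,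
    mul_comm f, add_neg_cancel_right]

theorem GenIn.loc {n : ℕ} {R R' : Subalgebra ℂ K} {a a' : K} {ω : ⋀[K]^n (Ω[K⁄ℂ])}
    (h : GenIn dK n R a ω) (hR : R ≤ R') (hf : ∀ r ∈ R', ∃ c ∈ R, Un R' c ∧ c * r ∈ R)
    (ha : Un R' (a / a')) : GenIn dK n R' a' ω := by
  classical
  have h1 : a' ≠ 0 := fun h0 => ha.1 (by rw [h0, div_zero])
  have hg := trans_genIn.1 h
  refine le_antisymm (Submodule.span_le.2 ?_)
    ((Submodule.span_singleton_le_iff_mem _ _).2 (RegIn.loc hg.1 hR ha))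
  rintro _ ⟨f, hfR, rfl⟩
  choose c hc hu hb using fun i => hf (f i) (hfR i)
  have hd : (fun i => dK (f i)) =
      (fun i => (c i)⁻¹ • dK (c i * f i)) + fun i => (-(f i * (c i)⁻¹)) • dK (c i) :=
    funext fun i => trans_div (hu i).1 (f i)
  have hs := (exteriorPower.ιMulti K n (M := Ω[K⁄ℂ])).toMultilinearMap.map_add_univ
    (fun i => (c i)⁻¹ • dK (c i * f i)) fun i => (-(f i * (c i)⁻¹)) • dK (c i)
  rw [SetLike.mem_coe, hd]
  refine (congrArg (· ∈ _) hs).mpr (Submodule.sum_mem _ fun s _ => ?_)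
  have hp : s.piecewise (fun i => (c i)⁻¹ • dK (c i * f i))
      (fun i => (-(f i * (c i)⁻¹)) • dK (c i)) =
      fun i => (if i ∈ s then (c i)⁻¹ else -(f i * (c i)⁻¹)) •
        dK (if i ∈ s then c i * f i else c i) := by
    funext i
    by_cases hi : i ∈ s <;> simp [hi]
  rw [hp, MultilinearMap.map_smul_univ]
  refine trans_smul (R := R') (prod_mem fun i _ => ?_) ?_
  · split_ifs
    · exact (hu i).2.2
    · exact neg_mem (mul_mem (hfR i) (hu i).2.2)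
  · obtain ⟨r, hr, e⟩ := hg.2 (fun i => if i ∈ s then c i * f i else c i) fun i => by
      split_ifs
      · exact hb i
      · exact hc i
    refine (congrArg (· ∈ _) e).mpr (trans_smul (hR hr) ?_)
    rw [show a = a / a' * a' by field_simp, mul_smul]
    exact trans_smul ha.2.1 (Submodule.mem_span_singleton_self _)

end Pool.Agent.Lib.MP_9ff3e7_ag.Sc
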