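import Pool.Agent.Lib.MP_9ff3e7_ag.Sc.Pts
import Pool.Agent.Lib.MP_9ff3e7_ag.Sc.Ring
import Pool.Agent.Lib.MP_9ff3e7_ag.Sc.Trans
import Pool.Agent.Lib.MP_9ff3e7_ag.F.XMain

/-! Freeness for a model inside its function field. -/

set_option autoImplicit false

namespace Pool.Agent.Lib.MP_9ff3e7_ag.Sc

open Set F

variable {K : Type} [Field K] [Algebra ℂ K] {P ι : Type} {R : P → Subalgebra ℂ K} {a : P → K}
  {k : ℕ} {σ : ι → K} {B : ι → Subalgebra ℂ K}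

theorem Model.free [Finite ι] (M : Model K R a k σ B) {n : ℕ} (hn : Algebra.trdeg ℂ K = n)
    {m : ℕ} (hm : n + 1 ≤ m) (z : P) : FreeIn n R (fun x => a x ^ m) z := by
  obtain ⟨N, G, M', hG⟩ := M.exists_gen
  obtain ⟨i, -⟩ := M.val ⊤ fun _ => trivial
  obtain ⟨S, _, _, _, 𝒜, _, c, e, C⟩ := exists_cone G (hG i).1 (M'.ne i) ((hG i).2 ▸ M'.field i)
  choose x hx using M'.exists_ov hG C
  obtain ⟨A, A1, A2⟩ := M'.cartier hG C hx
  choose p hp using M'.spec hG C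
  obtain ⟨ω, h1, h2⟩ : A.FreeAt n m (p z) := fujita 𝒜 C.gen n (e.trdeg_eq.trans hn)
    (M'.smooth hG C) A _ M'.kpos A2 m hm (p z)
  obtain ⟨Φ, hΦ⟩ := exists_trans e n
  refine ⟨Φ ω, fun y => ?_, ?_⟩
  · obtain ⟨a1, -, a3⟩ := hp y _ (hx _)
    have := (hΦ _ _ _).1.1 (h1 (p y))
    rw [(hx _).1, map_pow, A1] at this
    exact RegIn.loc this a1 (div_pow (a _) (a y) m ▸ a3.pow m)
  · obtain ⟨a1, a2, a3⟩ := hp z _ (hx _)
    have := (hΦ _ _ _).2.1 h2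
    rw [(hx _).1, map_pow, A1] at this
    exact GenIn.loc this a1 a2 (div_pow (a _) (a z) m ▸ a3.pow m)

end Pool.Agent.Lib.MP_9ff3e7_ag.Sc
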