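import Pool.Agent.Lib.MP_9ff3e7_ag.F.SDefs

/-! Line bundles, ampleness and global sections of adjoint bundles on schemes. -/

set_option autoImplicit false

namespace Pool.Agent.Lib.MP_9ff3e7_ag.Sc

open AlgebraicGeometry CategoryTheory F

noncomputable section

variable {X : Scheme.{0}}

/-- restriction of a section -/
def res (A : X.Modules) {U W : X.Opens} (h : W ≤ U) (s : Γ(A, U)) : Γ(A, W) :=
  A.presheaf.map (homOfLE h).op s

/-- `s` is a basis of `A` over `U` -/
def Frame (A : X.Modules) (U : X.Opens) (s : Γ(A, U)) : Prop :=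
  ∀ (W : X.Opens) (h : W ≤ U), Function.Bijective fun f : Γ(X, W) => f • res A h s

/-- `A` is a line bundle -/
def LineBundle (A : X.Modules) : Prop := ∀ x : X, ∃ U s, x ∈ U ∧ Frame A U s

/-- the functions `f U s` describe a global section of the `k`-th tensor power of `A`, equal to
`f U s * s ^ k` on `U` for every frame `s` -/
def PowSec (A : X.Modules) (k : ℕ) (f : ∀ U : X.Opens, Γ(A, U) → Γ(X, U)) : Prop :=
  ∀ U s V t, Frame A U s → Frame A V t → ∀ (W : X.Opens) (hU : W ≤ U) (hV : W ≤ V) (g : Γ(X, W)),
    res A hU s = g • res A hV t →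
      X.presheaf.map (homOfLE hV).op (f V t) = g ^ k * X.presheaf.map (homOfLE hU).op (f U s)

/-- every point lies in an affine open set that is the non-vanishing locus of a global section of
a positive tensor power of `A` -/
def Ample (A : X.Modules) : Prop :=
  ∀ x : X, ∃ k > 0, ∃ f, PowSec A k f ∧ ∃ U : X.Opens, x ∈ U ∧ IsAffineOpen U ∧
    ∀ V s, Frame A V s → X.basicOpen (f V s) = U ⊓ V

section rational

variable {K M : Type} [Field K] [Algebra ℂ K] [AddCommGroup M] [Module K M]

/-- `K` is the function field, `j` sends a regular function to a rational function, `R x` is the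
local ring at `x` and `d` the derivation. The rational `n`-forms `w U s` describe a global section
of `K_X + mA`, equal to `w U s ⊗ s ^ m` on `U` for every frame `s` -/
def AdjSec (d : K → M) (j : ∀ W : X.Opens, Nonempty W → Γ(X, W) → K) (R : X → Subalgebra ℂ K)
    (A : X.Modules) (n m : ℕ) (w : ∀ U : X.Opens, Γ(A, U) → ⋀[K]^n M) : Prop :=
  (∀ U s, Frame A U s → ∀ x ∈ U, w U s ∈ stalk d n (R x)) ∧
  ∀ U s V t, Frame A U s → Frame A V t → ∀ (W : X.Opens) (h : Nonempty W) (hU : W ≤ U)
    (hV : W ≤ V) (g : Γ(X, W)), res A hU s = g • res A hV t → w V t = j W h g ^ m • w U s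

/-- some global section of `K_X + mA` generates the stalk at `x` -/
def GenMod (d : K → M) (j : ∀ W : X.Opens, Nonempty W → Γ(X, W) → K) (R : X → Subalgebra ℂ K)
    (A : X.Modules) (n m : ℕ) (x : X) : Prop :=
  ∃ w, AdjSec d j R A n m w ∧ ∃ U s, Frame A U s ∧ x ∈ U ∧
    stalk d n (R x) = Submodule.span (R x) {w U s}

/-- `GenMod` for the Kähler differentials of `K` -/
def GenK (j : ∀ W : X.Opens, Nonempty W → Γ(X, W) → K) (R : X → Subalgebra ℂ K)
    (A : X.Modules) (n m : ℕ) (x : X) : Prop :=
  GenMod dK j R A n m x

end rational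

variable [IsIntegral X]

/-- the function field as a complex algebra -/
@[reducible] def constAlgebra (sX : X ⟶ Spec (CommRingCat.of ℂ)) : Algebra ℂ X.functionField :=
  RingHom.toAlgebra ((Scheme.ΓSpecIso (CommRingCat.of ℂ)).inv ≫ sX.appTop ≫
    X.presheaf.germ ⊤ (genericPoint X) trivial).hom

/-- a regular function as a rational function -/
def germ (W : X.Opens) (_ : Nonempty W) (g : Γ(X, W)) : X.functionField :=
  X.germToFunctionField W g

variable [Algebra ℂ X.functionField]

/-- the local ring at `x` inside the function field -/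
def locAt (x : X) : Subalgebra ℂ X.functionField :=
  Algebra.adjoin ℂ (Set.range (algebraMap (X.presheaf.stalk x) X.functionField))

/-- some global section of `K_X + mA` generates the stalk at `x` -/
def AdjGen (A : X.Modules) (n m : ℕ) (x : X) : Prop := GenK germ locAt A n m x

end

end Pool.Agent.Lib.MP_9ff3e7_ag.Sc
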