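import Pool.Agent.Lib.MP_9ff3e7_ag.Sc.Defs

/-! Separation of points by global sections of adjoint bundles on schemes. -/

set_option autoImplicit false

namespace Pool.Agent.Lib.MP_9ff3e7_ag.Sc

open AlgebraicGeometry F

variable {X : Scheme.{0}} {K M : Type} [Field K] [Algebra ℂ K] [AddCommGroup M] [Module K M]

/-- some global section of `K_X + mA` generates the stalk at `x` and not the stalk at `y` -/
def SepMod (d : K → M) (j : ∀ W : X.Opens, Nonempty W → Γ(X, W) → K) (R : X → Subalgebra ℂ K)
    (A : X.Modules) (n m : ℕ) (x y : X) : Prop :=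
  ∃ w, AdjSec d j R A n m w ∧
    (∃ U s, Frame A U s ∧ x ∈ U ∧ stalk d n (R x) = Submodule.span (R x) {w U s}) ∧
    ∃ U s, Frame A U s ∧ y ∈ U ∧ stalk d n (R y) ≠ Submodule.span (R y) {w U s}

/-- `SepMod` for the Kähler differentials of `K` -/
def SepK (j : ∀ W : X.Opens, Nonempty W → Γ(X, W) → K) (R : X → Subalgebra ℂ K)
    (A : X.Modules) (n m : ℕ) (x y : X) : Prop :=
  SepMod dK j R A n m x y

/-- some global section of `K_X + mA` generates the stalk at `x` and not the stalk at `y` -/
def AdjSep [IsIntegral X] [Algebra ℂ X.functionField] (A : X.Modules) (n m : ℕ) (x y : X) : Prop :=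
  SepK germ locAt A n m x y

end Pool.Agent.Lib.MP_9ff3e7_ag.Sc
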