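import Pool.Agent.Lib.MP_9ff3e7_ag.Sc.Set

/-! The dimension is the transcendence degree of the function field. -/

set_option autoImplicit false

namespace Pool.Agent.Lib.MP_9ff3e7_ag.Sc

open AlgebraicGeometry CategoryTheory Set F

theorem dim_etale {k B K : Type} [Field k] [CommRing B] [IsDomain B] [Field K] [Algebra B K]
    [IsFractionRing B K] [Algebra k K] {n : ℕ} (g : MvPolynomial (Fin n) k →+* B) (hg : g.Etale)
    (hc : ∀ c, algebraMap B K (g (MvPolynomial.C c)) = algebraMap k K c) :
    Algebra.trdeg k K = n := by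
  algebraize [g, (algebraMap B K).comp g]
  have : IsScalarTower k (MvPolynomial (Fin n) k) K :=
    IsScalarTower.of_algebraMap_eq fun c => (hc c).symm
  have : FaithfulSMul (MvPolynomial (Fin n) k) B := inferInstance
  have : FaithfulSMul (MvPolynomial (Fin n) k) K := by
    rw [faithfulSMul_iff_algebraMap_injective]
    exact (IsFractionRing.injective B K).comp
      (FaithfulSMul.algebraMap_injective (MvPolynomial (Fin n) k) B)
  let := FractionRing.liftAlgebra (MvPolynomial (Fin n) k) K
  have : Algebra.FormallyUnramified B K := .of_isLocalization (nonZeroDivisors B)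
  have : Algebra.EssFiniteType B K := .of_isLocalization K (nonZeroDivisors B)
  have : Algebra.FormallyUnramified (MvPolynomial (Fin n) k) K := .comp _ B _
  have : Algebra.EssFiniteType (MvPolynomial (Fin n) k) K := .comp _ B _
  have : Algebra.FormallyUnramified (FractionRing (MvPolynomial (Fin n) k)) K :=
    .of_restrictScalars (MvPolynomial (Fin n) k) _ _
  have : Algebra.EssFiniteType (FractionRing (MvPolynomial (Fin n) k)) K :=
    .of_comp (MvPolynomial (Fin n) k) _ _
  have := Algebra.FormallyUnramified.isSeparable (FractionRing (MvPolynomial (Fin n) k)) K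
  have : Algebra.IsAlgebraic (MvPolynomial (Fin n) k) K :=
    (IsFractionRing.comap_isAlgebraic_iff (K := FractionRing (MvPolynomial (Fin n) k))).2
      inferInstance
  rw [← trdeg_add_eq k (MvPolynomial (Fin n) k) (A := K), trdeg_eq_zero (A := K),
    MvPolynomial.trdeg_of_isDomain]
  simp

variable {X : Scheme.{0}} [IsIntegral X] {s : X ⟶ Spec (CommRingCat.of ℂ)}
  [Algebra ℂ X.functionField]

theorem Cst.trdeg (h : Cst s) (n : ℕ) [SmoothOfRelativeDimension n s] :
    Algebra.trdeg ℂ X.functionField = n := by
  obtain ⟨U, -, V, hV, hx, e, hf⟩ :=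
    SmoothOfRelativeDimension.exists_isStandardSmoothOfRelativeDimension (n := n) (f := s)
      (genericPoint X)
  obtain rfl : U = ⊤ := top_le_iff.1 fun y _ => by
    have : y = s (genericPoint X) := Subsingleton.elim (α := PrimeSpectrum ℂ) _ _
    exact this ▸ e hx
  have : Nonempty V := ⟨⟨_, hx⟩⟩
  have := functionField_isFractionRing_of_isAffineOpen X V hV
  have h2 : RingHom.IsStandardSmoothOfRelativeDimension n
      ((Scheme.ΓSpecIso (.of ℂ)).inv ≫ s.appLE ⊤ V le_top).hom :=
    (RingHom.isStandardSmoothOfRelativeDimension_respectsIso (n := n)).2 _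
      (Scheme.ΓSpecIso (.of ℂ)).symm.commRingCatIsoToRingEquiv hf
  obtain ⟨g, h3, h4⟩ := h2.exists_etale_mvPolynomial
  exact dim_etale g h4 fun c =>
    (congrArg (X.germToFunctionField V) (DFunLike.congr_fun h3 c)).trans (h.germ V c)

end Pool.Agent.Lib.MP_9ff3e7_ag.Sc
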