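import Pool.Agent.Lib.MP_9ff3e7_ag.Sc.Set

/-! Extension of functions to sections; generators of the charts. -/

set_option autoImplicit false

namespace Pool.Agent.Lib.MP_9ff3e7_ag.Sc

open AlgebraicGeometry CategoryTheory Set F

variable {K : Type} [Field K] [Algebra ℂ K] {P ι : Type} {R : P → Subalgebra ℂ K} {a : P → K}
  {k : ℕ} {σ : ι → K} {B : ι → Subalgebra ℂ K}

/-- proper ideals of a chart ring vanish at a point -/
theorem exists_hom {C : Subalgebra ℂ K} (h : C.FG) (I : Ideal C) (hI : I ≠ ⊤) :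
    ∃ y : C →ₐ[ℂ] ℂ, ∀ c ∈ I, y c = 0 := by
  have : Algebra.FiniteType ℂ C := (Subalgebra.fg_iff_finiteType C).1 h
  obtain ⟨m, hm, hle⟩ := Ideal.exists_le_maximal I hI
  let _ := Ideal.Quotient.field m
  have : Module.Finite ℂ (C ⧸ m) := finite_of_finite_type_of_isJacobsonRing _ _
  let e := AlgEquiv.ofBijective (Algebra.ofId ℂ (C ⧸ m))
    (IsAlgClosed.algebraMap_bijective_of_isIntegral (k := ℂ) (K := C ⧸ m))
  refine ⟨(e.symm : C ⧸ m →ₐ[ℂ] ℂ).comp (Ideal.Quotient.mkₐ ℂ m), fun c hc => ?_⟩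
  simp [Ideal.Quotient.eq_zero_iff_mem.2 (hle hc)]

/-- the denominators of `z` -/
def extDen (C : Subalgebra ℂ K) (z : K) : Ideal C where
  carrier := {b | (b : K) * z ∈ C}
  zero_mem' := by simp
  add_mem' {b c} hb hc := by
    simpa [add_mul] using add_mem hb hc
  smul_mem' c b hb := by
    simpa [mul_assoc] using mul_mem c.2 hb

theorem ext_rad {C : Subalgebra ℂ K} (h : C.FG) (I : Ideal C) {s : C}
    (hs : ∀ y : C →ₐ[ℂ] ℂ, (∀ c ∈ I, y c = 0) → y s = 0) : ∃ N : ℕ, s ^ N ∈ I := by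
  have : Algebra.FiniteType ℂ C := (Subalgebra.fg_iff_finiteType C).1 h
  have : IsJacobsonRing C := isJacobsonRing_of_finiteType (A := ℂ)
  change s ∈ I.radical
  rw [Ideal.radical_eq_jacobson]
  refine Ideal.mem_sInf.2 fun {m} hm => ?_
  obtain ⟨y, hy⟩ := exists_hom h m hm.2.ne_top
  have e : m = RingHom.ker y := hm.2.eq_of_le (RingHom.ker_ne_top y) hy
  rw [e]
  exact hs y fun c hc => hy c (hm.1 hc)

theorem Model.ext_pow (M : Model K R a k σ B) (j : ι) {s z : K} (hs : s ∈ B j)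
    (h : ∀ x, Un (R x) (a x ^ k * σ j) → Un (R x) s → z ∈ R x) : ∃ N : ℕ, z * s ^ N ∈ B j := by
  obtain ⟨N, hN⟩ := ext_rad (M.fg j) (extDen (B j) z) (s := ⟨s, hs⟩) fun y hy => by
    by_contra h0
    obtain ⟨x, h1, h2⟩ := M.pt j y
    obtain ⟨c, hc, h3, h4⟩ := M.frac j x h1 z (h x h1 ((h2 _).2 h0))
    exact (h2 ⟨c, hc⟩).1 h3 (hy _ h4)
  exact ⟨N, by rw [mul_comm]; exact hN⟩

theorem Model.ext_mem (M : Model K R a k σ B) (j : ι) {z : K}
    (h : ∀ x, Un (R x) (a x ^ k * σ j) → z ∈ R x) : z ∈ B j := by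
  obtain ⟨N, hN⟩ := M.ext_pow j (one_mem _) fun x h1 _ => h x h1
  simpa using hN

theorem Model.ext (M : Model K R a k σ B) (i j : ι) {t : K} (ht : t ∈ B i) :
    σ i / σ j ∈ B j ∧ ∃ N : ℕ, t * (σ i / σ j) ^ N ∈ B j := by
  have h : σ i / σ j ∈ B j := M.ext_mem j fun x h1 => by
    rw [← mul_div_mul_left _ _ (left_ne_zero_of_mul h1.1), div_eq_mul_inv]
    exact mul_mem (M.sec i x) h1.2.2
  refine ⟨h, M.ext_pow j h fun x h1 h2 => M.le i x ?_ ht⟩
  have h3 := h1.mul h2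
  rwa [mul_assoc, mul_div_cancel₀ _ (M.ne j)] at h3

theorem Model.ext_un (M : Model K R a k σ B) {N : ℕ} (hN : 0 < N) (i : ι) (x : P) :
    Un (R x) (a x ^ (k * N) * σ i ^ N) ↔ Un (R x) (a x ^ k * σ i) := by
  rw [pow_mul, ← mul_pow]
  exact ⟨fun h => h.of_pow hN (M.sec i x), fun h => h.pow N⟩

theorem Model.ext_vero (M : Model K R a k σ B) {N : ℕ} (hN : 0 < N) :
    Model K R a (k * N) (fun i => σ i ^ N) B where
  kpos := Nat.mul_pos M.kpos hN
  ne i := pow_ne_zero _ (M.ne i)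
  fg := M.fg
  sm := M.sm
  field := M.field
  val := M.val
  loc := M.loc
  sec i x := by
    rw [pow_mul, ← mul_pow]
    exact pow_mem (M.sec i x) _
  cover x := (M.cover x).imp fun i h => (M.ext_un hN i x).2 h
  le i x h := M.le i x ((M.ext_un hN i x).1 h)
  frac i x h := M.frac i x ((M.ext_un hN i x).1 h)
  pt i y := (M.pt i y).imp fun x h => ⟨(M.ext_un hN i x).2 h.1, h.2⟩
  near i x h := (M.near i x ((M.ext_un hN i x).1 h)).imp fun _ h =>
    ⟨h.1, h.2.1, fun x' h' => h.2.2 x' ((M.ext_un hN i x').1 h')⟩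

theorem Model.exists_gen [Finite ι] (M : Model K R a k σ B) : ∃ (N : ℕ) (G : Finset K),
    Model K R a (k * N) (fun i => σ i ^ N) B ∧ Gen (fun i => σ i ^ N) B G := by
  classical
  have := Fintype.ofFinite ι
  choose T hT using M.fg
  have hm : ∀ i, ∀ t ∈ insert 1 (T i), t ∈ B i := fun i t ht => by
    rcases Finset.mem_insert.1 ht with rfl | ht
    · exact one_mem _
    · exact hT i ▸ Algebra.subset_adjoin ht
  have ev : ∀ i j, ∀ t ∈ B i, ∀ᶠ N in Filter.atTop, t * (σ i / σ j) ^ N ∈ B j := fun i j t ht => by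
    obtain ⟨h, N, hN⟩ := M.ext i j ht
    refine Filter.eventually_atTop.2 ⟨N, fun n hn => ?_⟩
    obtain ⟨d, rfl⟩ := Nat.exists_eq_add_of_le hn
    rw [pow_add, ← mul_assoc]
    exact mul_mem hN (pow_mem h _)
  have al : ∀ᶠ N in Filter.atTop, ∀ i j, ∀ t ∈ insert 1 (T i), t * (σ i / σ j) ^ N ∈ B j :=
    Filter.eventually_all.2 fun i => Filter.eventually_all.2 fun j =>
      (Filter.eventually_all_finset _).2 fun t ht => ev i j t (hm i t ht)
  obtain ⟨N, h1, h2⟩ := (al.and (Filter.eventually_gt_atTop 0)).exists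
  refine ⟨N, Finset.univ.biUnion fun i => (insert 1 (T i)).image (· * σ i ^ N), M.ext_vero h2,
    fun j => ⟨?_, le_antisymm ?_ (Algebra.adjoin_le ?_)⟩⟩
  · exact Finset.mem_biUnion.2 ⟨j, Finset.mem_univ _,
      Finset.mem_image.2 ⟨1, Finset.mem_insert_self _ _, one_mul _⟩⟩
  · rw [← hT j]
    refine Algebra.adjoin_mono fun t ht => ⟨t * σ j ^ N, Finset.mem_biUnion.2 ⟨j, Finset.mem_univ _,
      Finset.mem_image.2 ⟨t, Finset.mem_insert_of_mem ht, rfl⟩⟩, ?_⟩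
    exact mul_div_cancel_right₀ _ (pow_ne_zero _ (M.ne j))
  · rintro _ ⟨g, hg, rfl⟩
    obtain ⟨i, -, hg⟩ := Finset.mem_biUnion.1 hg
    obtain ⟨t, ht, rfl⟩ := Finset.mem_image.1 hg
    have h3 := h1 i j t ht
    rwa [div_pow, ← mul_div_assoc] at h3

end Pool.Agent.Lib.MP_9ff3e7_ag.Sc
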