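import Pool.Agent.Lib.MP_9ff3e7_ag.Sc.Set

/-! Frames, ratios of frames and sections. -/

set_option autoImplicit false

namespace Pool.Agent.Lib.MP_9ff3e7_ag.Sc

open AlgebraicGeometry CategoryTheory Set F

section Res

variable {X : Scheme.{0}} {A : X.Modules} {U V W W' : X.Opens}

theorem res_res (h : W ≤ U) (h' : W' ≤ W) (s : Γ(A, U)) :
    res A h' (res A h s) = res A (h'.trans h) s := by
  unfold res
  rw [← ConcreteCategory.comp_apply, ← Functor.map_comp]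
  rfl

theorem res_smul (h : W ≤ U) (g : Γ(X, U)) (s : Γ(A, U)) :
    res A h (g • s) = X.presheaf.map (homOfLE h).op g • res A h s := A.map_smul _ _ _

theorem res_rel {u : Γ(A, U)} {v : Γ(A, V)} {hU : W ≤ U} {hV : W ≤ V} {g : Γ(X, W)}
    (e : res A hU u = g • res A hV v) (h : W' ≤ W) :
    res A (h.trans hU) u = X.presheaf.map (homOfLE h).op g • res A (h.trans hV) v := by
  rw [← res_res hU h, e, res_smul, res_res]

theorem Frame.exists_unit {u : Γ(A, U)} {v : Γ(A, V)} (hu : Frame A U u) (hv : Frame A V v)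
    (hU : W ≤ U) (hV : W ≤ V) : ∃ g : Γ(X, W), IsUnit g ∧ res A hU u = g • res A hV v := by
  obtain ⟨g, hg⟩ := (hv W hV).2 (res A hU u)
  obtain ⟨g', hg'⟩ := (hu W hU).2 (res A hV v)
  simp only at hg hg'
  refine ⟨g, IsUnit.of_mul_eq_one g' ((hu W hU).1 ?_), hg.symm⟩
  simp only [mul_smul, hg', hg, one_smul]

end Res

variable {X : Scheme.{0}} [IsIntegral X] {s : X ⟶ Spec (CommRingCat.of ℂ)}
  [Algebra ℂ X.functionField] {A : X.Modules} {r : ∀ U : X.Opens, Γ(A, U) → X.functionField}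

omit [Algebra ℂ X.functionField] in
theorem exists_ratio (hA : LineBundle A) : ∃ r, Ratio A r := by
  obtain ⟨U0, u0, h0, hu0⟩ := hA (genericPoint X)
  have : Nonempty U0 := ⟨⟨_, h0⟩⟩
  have ex : ∀ (U : X.Opens) (u : Γ(A, U)), ∃ z : X.functionField, Frame A U u → ∀ _ : Nonempty U,
      ∃ g : Γ(X, U0 ⊓ U), IsUnit g ∧ res A inf_le_left u0 = g • res A inf_le_right u ∧
        X.germToFunctionField _ g = z := fun U u => by
    by_cases h : Frame A U u ∧ Nonempty U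
    · obtain ⟨g, h1, h2⟩ := hu0.exists_unit h.1 (W := U0 ⊓ U) inf_le_left inf_le_right
      have := h.2
      exact ⟨X.germToFunctionField _ g, fun _ _ => ⟨g, h1, h2, rfl⟩⟩
    · exact ⟨0, fun a b => absurd ⟨a, b⟩ h⟩
  choose r hr using ex
  refine ⟨r, fun U u hu hU => ?_, fun U u V v hu hv W _ hU hV g e => ?_⟩
  · obtain ⟨g, h1, -, h2⟩ := hr U u hu hU
    rw [← h2]
    exact (h1.map (X.germToFunctionField _).hom).ne_zero
  · have nU : Nonempty U := ⟨⟨_, hU (gen_mem W)⟩⟩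
    have nV : Nonempty V := ⟨⟨_, hV (gen_mem W)⟩⟩
    obtain ⟨a, -, a1, a2⟩ := hr U u hu nU
    obtain ⟨b, -, b1, b2⟩ := hr V v hv nV
    have a3 := res_rel a1 (W' := U0 ⊓ W) (inf_le_inf_left _ hU)
    have b3 := res_rel b1 (W' := U0 ⊓ W) (inf_le_inf_left _ hV)
    have e3 := res_rel e (W' := U0 ⊓ W) inf_le_right
    have := (hv (U0 ⊓ W) (inf_le_right.trans hV)).1
      (b3.symm.trans (a3.trans ((congrArg _ e3).trans (mul_smul _ _ _).symm)))
    have := congrArg (X.germToFunctionField (U0 ⊓ W)) this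
    rw [map_mul, germ_res, germ_res, germ_res, a2, b2] at this
    rw [this, mul_comm]

theorem Ratio.un (h : Cst s) (H : Ratio A r) {U V : X.Opens} {u : Γ(A, U)} {v : Γ(A, V)}
    (hu : Frame A U u) (hv : Frame A V v) {x : X} (hU : x ∈ U) (hV : x ∈ V) :
    Un (locAt x) (r U u / r V v) := by
  have : Nonempty (U ⊓ V : X.Opens) := ⟨⟨x, hU, hV⟩⟩
  obtain ⟨g, h1, h2⟩ := hv.exists_unit hu (W := U ⊓ V) inf_le_right inf_le_left
  rw [H.2 V v U u hv hu _ _ _ g h2, mul_div_cancel_right₀ _ (H.1 V v hv ⟨⟨x, hV⟩⟩),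
    h.un_germ (show x ∈ U ⊓ V from ⟨hU, hV⟩), X.basicOpen_of_isUnit h1]
  exact ⟨hU, hV⟩

/-- a rational form gives a family over the frames -/
theorem Ratio.adj (h : Cst s) (H : Ratio A r) {U : X → X.Opens} {u : ∀ x, Γ(A, U x)}
    (hu : ∀ x, x ∈ U x ∧ Frame A (U x) (u x)) {n m : ℕ}
    {ω : ⋀[X.functionField]^n (Ω[X.functionField⁄ℂ])}
    (hω : ∀ x, RegIn dK n (locAt x) (r (U x) (u x) ^ m) ω) :
    AdjSec dK germ locAt A n m fun V v => r V v ^ m • ω := by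
  refine ⟨fun V v hv x hx => ?_, fun V v V' v' hv hv' W _ hV hV' g e => ?_⟩
  · have h1 := (H.un h hv (hu x).2 hx (hu x).1).pow m
    have h2 := H.1 _ _ (hu x).2 ⟨⟨x, (hu x).1⟩⟩
    have : (r V v / r (U x) (u x)) ^ m • r (U x) (u x) ^ m • ω ∈ stalk dK n (locAt x) :=
      (stalk dK n (locAt x)).smul_mem ⟨_, h1.2.1⟩ (hω x)
    rwa [smul_smul, div_pow, div_mul_cancel₀ _ (pow_ne_zero _ h2)] at this
  · simp only
    rw [H.2 V v V' v' hv hv' W hV hV' g e, mul_pow, mul_smul]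
    rfl

omit [Algebra ℂ X.functionField] in
theorem Ratio.pow (H : Ratio A r) {k : ℕ} {f : ∀ U : X.Opens, Γ(A, U) → Γ(X, U)}
    (hf : PowSec A k f) {U : X.Opens} {u : Γ(A, U)} (hu : Frame A U u) [Nonempty U] :
    ∃ σ : X.functionField, ∀ (V : X.Opens) (v : Γ(A, V)) [Nonempty V], Frame A V v →
      r V v ^ k * σ = X.germToFunctionField V (f V v) := by
  refine ⟨X.germToFunctionField U (f U u) / r U u ^ k, fun V v _ hv => ?_⟩
  obtain ⟨g, -, h2⟩ := hu.exists_unit hv (W := U ⊓ V) inf_le_left inf_le_right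
  have := congrArg (X.germToFunctionField (U ⊓ V)) (hf U u V v hu hv _ _ _ g h2)
  rw [map_mul, map_pow, germ_res, germ_res] at this
  rw [this, H.2 U u V v hu hv _ _ _ g h2]
  have := H.1 U u hu ‹_›
  rw [mul_pow]
  field_simp

/-- finitely many sections of one power whose non-vanishing loci are affine and cover -/
theorem Ratio.cover [CompactSpace X] (h : Cst s) (H : Ratio A r) (ha : Ample A)
    {U : X → X.Opens} {u : ∀ x, Γ(A, U x)} (hu : ∀ x, x ∈ U x ∧ Frame A (U x) (u x)) :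
    ∃ (k N : ℕ) (σ : Fin N → X.functionField) (W : Fin N → X.Opens), 0 < k ∧
      (∀ i, IsAffineOpen (W i) ∧ Nonempty (W i)) ∧ (∀ x, ∃ i, x ∈ W i) ∧
      (∀ i x, r (U x) (u x) ^ k * σ i ∈ locAt x) ∧
      ∀ i x, x ∈ W i ↔ Un (locAt x) (r (U x) (u x) ^ k * σ i) := by
  choose k k0 f hf W w1 w2 w3 using ha
  have ne : ∀ x, Nonempty (U x) := fun x => ⟨⟨x, (hu x).1⟩⟩
  choose σ hσ using fun x => H.pow (hf x) (hu x).2
  obtain ⟨t, ht⟩ := isCompact_univ.elim_finite_subcover (fun x => (W x : Set X))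
    (fun x => (W x).isOpen) fun x _ => mem_iUnion.2 ⟨x, w1 x⟩
  let e := t.equivFin.symm
  have hd : ∀ y : t, ∃ d, 0 < d ∧ ∏ x ∈ t, k x = k y * d := fun y => by
    obtain ⟨d, hd⟩ := Finset.dvd_prod_of_mem k y.2
    refine ⟨d, Nat.pos_of_ne_zero ?_, hd⟩
    rintro rfl
    exact (Finset.prod_pos fun x _ => k0 x).ne' (by simpa using hd)
  choose d d0 hd using hd
  have key : ∀ (y : t) x, r (U x) (u x) ^ (∏ x ∈ t, k x) * σ y ^ d y =
      X.germToFunctionField (U x) (f y (U x) (u x)) ^ d y := fun y x => by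
    rw [hd y, pow_mul, ← mul_pow, hσ y _ _ (hu x).2]
  refine ⟨∏ x ∈ t, k x, _, fun i => σ (e i) ^ d (e i), fun i => W (e i),
    Finset.prod_pos fun x _ => k0 x, fun i => ⟨w2 _, ⟨⟨_, w1 _⟩⟩⟩, fun x => ?_, fun i x => ?_,
    fun i x => ?_⟩
  · obtain ⟨y, hy, hxy⟩ := mem_iUnion₂.1 (ht (mem_univ x))
    exact ⟨e.symm ⟨y, hy⟩, by simpa using hxy⟩
  · rw [key]
    exact pow_mem (germ_mem (hu x).1 _) _
  · have h1 := h.un_germ (hu x).1 (f (e i) (U x) (u x))
    rw [w3 _ _ _ (hu x).2] at h1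
    rw [key]
    exact ⟨fun hx => (h1.2 ⟨hx, (hu x).1⟩).pow _,
      fun hx => (h1.1 (hx.of_pow (d0 _) (germ_mem (hu x).1 _))).1⟩

end Pool.Agent.Lib.MP_9ff3e7_ag.Sc
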