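import Pool.Agent.Lib.MP_9ff3e7_ag.Sc.Core
import Pool.Agent.Lib.MP_9ff3e7_ag.Sc.Rat
import Pool.Agent.Lib.MP_9ff3e7_ag.Sc.Chart
import Pool.Agent.Lib.MP_9ff3e7_ag.Sc.Dim

/-! Freeness on schemes. -/

set_option autoImplicit false

namespace Pool.Agent.Lib.MP_9ff3e7_ag.Sc

open AlgebraicGeometry CategoryTheory Set F

variable {X : Scheme.{0}} [IsIntegral X] {s : X ⟶ Spec (CommRingCat.of ℂ)}
  [Algebra ℂ X.functionField] {A : X.Modules} {r : ∀ U : X.Opens, Γ(A, U) → X.functionField}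

theorem Ratio.model [Smooth s] [IsProper s] (h : Cst s) (H : Ratio A r) (ha : Ample A)
    {U : X → X.Opens} {u : ∀ x, Γ(A, U x)} (hu : ∀ x, x ∈ U x ∧ Frame A (U x) (u x)) :
    ∃ (k N : ℕ) (σ : Fin N → X.functionField) (B : Fin N → Subalgebra ℂ X.functionField),
      Model X.functionField locAt (fun x => r (U x) (u x)) k σ B ∧
      ∀ z : X, IsClosed ({z} : Set X) → ∀ z', locAt z' ≤ locAt z →
        Un (locAt z) (r (U z') (u z') / r (U z) (u z)) → z' = z := by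
  have : CompactSpace X := (quasiCompact_iff_compactSpace s).1 inferInstance
  obtain ⟨k, N, σ, W, k0, w1, w2, w3, w4⟩ := H.cover h ha hu
  choose B b1 b2 b3 b4 b5 b6 b7 using fun i => @Cst.chart _ _ _ _ h _ _ (w1 i).1 (w1 i).2
  refine ⟨k, N, σ, B, ⟨k0, fun i => ?_, b1, b2, b3, fun V hV => ?_, h.loc, w3, fun x => ?_,
    fun i x hx => b4 i x ((w4 i x).2 hx), fun i x hx => b5 i x ((w4 i x).2 hx), fun i y => ?_,
    fun i x hx => ?_⟩, fun z hz z' h1 h2 => ?_⟩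
  · obtain ⟨x, hx⟩ := (w1 i).2
    exact right_ne_zero_of_mul ((w4 i x).1 hx).1
  · obtain ⟨x, hx⟩ := h.center V hV
    obtain ⟨i, hi⟩ := w2 x
    exact ⟨i, fun b hb => hx b (b4 i x hi hb)⟩
  · obtain ⟨i, hi⟩ := w2 x
    exact ⟨i, (w4 i x).1 hi⟩
  · obtain ⟨x, hx, h1⟩ := b6 i y
    exact ⟨x, (w4 i x).1 hx, h1⟩
  · obtain ⟨c, c1, c2, c3⟩ := b7 i x ((w4 i x).2 hx) (U x) (hu x).1
    exact ⟨c, c1, c2, fun x' h1 h2 =>
      H.un h (hu x).2 (hu x').2 (c3 x' ((w4 i x').2 h1) h2) (hu x').1⟩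
  · by_contra hne
    obtain ⟨i, hi⟩ := w2 z'
    have h3 := (((w4 i z').1 hi).mono h1).div (h2.pow k)
    have h4 := H.1 _ _ (hu z').2 ⟨⟨z', (hu z').1⟩⟩
    rw [show r (U z') (u z') ^ k * σ i / (r (U z') (u z') / r (U z) (u z)) ^ k =
      r (U z) (u z) ^ k * σ i by rw [div_pow]; field_simp] at h3
    obtain ⟨c, -, c2, c3⟩ := b7 i z' hi ⟨{z}ᶜ, hz.isOpen_compl⟩ hne
    exact c3 z ((w4 i z).2 h3) (c2.mono h1) rfl

theorem Cst.free (h : Cst s) (n : ℕ) [SmoothOfRelativeDimension n s] [IsProper s]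
    (hA : LineBundle A) (ha : Ample A) {m : ℕ} (hm : n + 1 ≤ m) (x : X) : AdjGen A n m x := by
  have := SmoothOfRelativeDimension.smooth n s
  obtain ⟨r, H⟩ := exists_ratio hA
  choose U u hu using hA
  obtain ⟨k, N, σ, B, M, -⟩ := H.model h ha hu
  obtain ⟨ω, h1, h2⟩ := M.free (h.trdeg n) hm x
  exact ⟨_, H.adj h hu h1, U x, u x, (hu x).2, (hu x).1, h2⟩

end Pool.Agent.Lib.MP_9ff3e7_ag.Sc
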