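import Pool.Agent.Lib.MP_9ff3e7_ag.F.SDefs

/-! A polarised variety inside its function field: the data of the bridge. -/

set_option autoImplicit false

namespace Pool.Agent.Lib.MP_9ff3e7_ag.Sc

open F

/-- `u` is a unit of `R` -/
def Un {K : Type} [Field K] [Algebra ℂ K] (R : Subalgebra ℂ K) (u : K) : Prop :=
  u ≠ 0 ∧ u ∈ R ∧ u⁻¹ ∈ R

/-- points `x` with local rings `R x`, a Cartier divisor with local equations `a x`, sections `σ i`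
of `O(kA)` whose non-vanishing loci are affine with rings `B i` and cover -/
structure Model (K : Type) [Field K] [Algebra ℂ K] {P ι : Type} (R : P → Subalgebra ℂ K)
    (a : P → K) (k : ℕ) (σ : ι → K) (B : ι → Subalgebra ℂ K) : Prop where
  kpos : 0 < k
  ne : ∀ i, σ i ≠ 0
  fg : ∀ i, (B i).FG
  sm : ∀ i, Algebra.FormallySmooth ℂ (B i)
  field : ∀ i (z : K), ∃ c ∈ B i, c ≠ 0 ∧ c * z ∈ B i
  val : ∀ V : ValuationSubring K, (∀ c : ℂ, algebraMap ℂ K c ∈ V) → ∃ i, ∀ b ∈ B i, b ∈ V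
  loc : ∀ x, ∀ r ∈ R x, Un (R x) r ∨ Un (R x) (1 - r)
  sec : ∀ i x, a x ^ k * σ i ∈ R x
  cover : ∀ x, ∃ i, Un (R x) (a x ^ k * σ i)
  le : ∀ i x, Un (R x) (a x ^ k * σ i) → B i ≤ R x
  frac : ∀ i x, Un (R x) (a x ^ k * σ i) → ∀ r ∈ R x, ∃ c ∈ B i, Un (R x) c ∧ c * r ∈ B i
  pt : ∀ i (y : B i →ₐ[ℂ] ℂ), ∃ x, Un (R x) (a x ^ k * σ i) ∧ ∀ c : B i, Un (R x) c ↔ y c ≠ 0
  near : ∀ i x, Un (R x) (a x ^ k * σ i) → ∃ c ∈ B i, Un (R x) c ∧
    ∀ x', Un (R x') (a x' ^ k * σ i) → Un (R x') c → Un (R x') (a x / a x')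

/-- the charts are the standard charts of the map to projective space given by `G` -/
def Gen {K : Type} [Field K] [Algebra ℂ K] {ι : Type} (σ : ι → K) (B : ι → Subalgebra ℂ K)
    (G : Finset K) : Prop :=
  ∀ i, σ i ∈ G ∧ B i = Algebra.adjoin ℂ ((fun g => g / σ i) '' (G : Set K))

/-- `S` is the homogeneous coordinate ring of the map given by `G` -/
structure Cone {K S : Type} [Field K] [Algebra ℂ K] [CommRing S] [IsDomain S] [Algebra ℂ S]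
    (G : Finset K) (𝒜 : ℕ → Submodule ℂ S) (c : S →ₐ[ℂ] K) (e : Fn 𝒜 ≃ₐ[ℂ] K) : Prop where
  gen : ∃ s : Finset S, (∀ b ∈ s, b ∈ 𝒜 1) ∧ Algebra.adjoin ℂ (s : Set S) = ⊤
  one : (𝒜 1).map c.toLinearMap = Submodule.span ℂ (G : Set K)
  inj : ∀ j, ∀ b ∈ 𝒜 j, c b = 0 → b = 0
  div : ∀ j, ∀ b ∈ 𝒜 j, ∀ b' ∈ 𝒜 j, ∀ z : Fn 𝒜,
    (z : FractionRing S) = algebraMap S (FractionRing S) b / algebraMap S (FractionRing S) b' →
      e z = c b / c b'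

end Pool.Agent.Lib.MP_9ff3e7_ag.Sc
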