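import Pool.Agent.Lib.MP_9ff3e7_ag.Sc.Ext
import Pool.Agent.Lib.MP_9ff3e7_ag.F.XChart

/-! The points of the cone and the points of the model. -/

set_option autoImplicit false

namespace Pool.Agent.Lib.MP_9ff3e7_ag.Sc

open Set F

variable {K S : Type} [Field K] [Algebra ℂ K] [CommRing S] [IsDomain S] [Algebra ℂ S]
  {P ι : Type} {R : P → Subalgebra ℂ K} {a : P → K} {k : ℕ} {σ : ι → K}
  {B : ι → Subalgebra ℂ K} {G : Finset K} {𝒜 : ℕ → Submodule ℂ S} [GradedAlgebra 𝒜]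
  {c : S →ₐ[ℂ] K} {e : Fn 𝒜 ≃ₐ[ℂ] K}

theorem Cone.deh (C : Cone G 𝒜 c e) (l : 𝒜 1) {j : ℕ} {f : S} (hf : f ∈ 𝒜 j) :
    e (deh l f) = c f / c l ^ j := by
  rw [C.div j f hf _ (pow_mem1 l j) _ (by rw [deh_coe l hf, map_pow]), map_pow]

omit [GradedAlgebra 𝒜] in
theorem Cone.lift (C : Cone G 𝒜 c e) {g : K} (hg : g ∈ G) : ∃ l : 𝒜 1, c l = g := by
  obtain ⟨l, h1, h2⟩ : g ∈ (𝒜 1).map c.toLinearMap := C.one ▸ Submodule.subset_span hg
  exact ⟨⟨l, h1⟩, h2⟩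

theorem Cone.mem_iff (C : Cone G 𝒜 c e) (hG : Gen σ B G) {i : ι} {l : 𝒜 1} (hl : c l = σ i)
    {b : K} : b ∈ B i ↔ ∃ f, e (F.deh l f) = b := by
  rw [(hG i).2]
  constructor
  · intro hb
    refine (Algebra.adjoin_le (S := ((e : Fn 𝒜 →ₐ[ℂ] K).comp (F.deh l)).range) ?_) hb
    rintro _ ⟨g, hg, rfl⟩
    obtain ⟨l', h⟩ := C.lift hg
    exact ⟨l', (C.deh l l'.2).trans (by rw [h, hl, pow_one])⟩
  · rintro ⟨f, rfl⟩
    obtain ⟨s, s1, s2⟩ := C.gen
    have hf : f ∈ Algebra.adjoin ℂ (s : Set S) := s2 ▸ trivial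
    induction hf using Algebra.adjoin_induction with
    | mem f hf =>
      rw [C.deh l (s1 f hf), hl, pow_one]
      have h1 : c f ∈ Submodule.span ℂ (G : Set K) := C.one ▸ ⟨f, s1 f hf, rfl⟩
      generalize c f = w at h1
      induction h1 using Submodule.span_induction with
      | mem w hw => exact Algebra.subset_adjoin ⟨w, hw, rfl⟩
      | zero => simp
      | add v w _ _ hv hw => rw [add_div]; exact add_mem hv hw
      | smul r w _ hw => rw [smul_div_assoc]; exact Subalgebra.smul_mem _ hw r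
    | algebraMap r => simp
    | add f g _ _ hf hg => rw [map_add, map_add]; exact add_mem hf hg
    | mul f g _ _ hf hg => rw [map_mul, map_mul]; exact mul_mem hf hg

theorem Cone.form (C : Cone G 𝒜 c e) (hG : Gen σ B G) {i : ι} {l : 𝒜 1} (hl : c l = σ i)
    (h0 : σ i ≠ 0) {b : K} (hb : b ∈ B i) : ∃ j, ∃ f ∈ 𝒜 j, e (F.deh l f) = b := by
  obtain ⟨f, rfl⟩ := (C.mem_iff hG hl).1 hb
  obtain ⟨j, hj⟩ := exists_form (l := l) (fun h => h0 (by rw [← hl, h, map_zero])) f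
  obtain ⟨g, h1, h2⟩ := hj j le_rfl
  exact ⟨j, g, h1, by rw [h2]⟩

theorem unitAt_deh {l : 𝒜 1} {p : Pt 𝒜} (hp : p.1 l ≠ 0) {j : ℕ} {f : S} (hf : f ∈ 𝒜 j) :
    UnitAt p (deh l f) ↔ p.1 f ≠ 0 := by
  have := unitAt_iff (q := p) (x := ⟨deh l f, deh_mem_loc hp f⟩)
  rw [ev_deh hp hf] at this
  simpa [hp] using this

omit [GradedAlgebra 𝒜] in
theorem un_map {p : Pt 𝒜} {R' : Subalgebra ℂ K} (h : (F.loc p).map (e : Fn 𝒜 →ₐ[ℂ] K) = R')
    {u : Fn 𝒜} : Un R' (e u) ↔ UnitAt p u := by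
  have key : ∀ v, e v ∈ R' ↔ v ∈ F.loc p := fun v => by
    rw [← h]
    exact ⟨fun ⟨w, h1, h2⟩ => e.injective h2 ▸ h1, fun h => ⟨v, h, rfl⟩⟩
  unfold Un UnitAt
  rw [← map_inv₀, key, key, map_ne_zero]

/-- every point of the cone lies in a chart -/
theorem Model.pt_chart (M : Model K R a k σ B) (hG : Gen σ B G) (C : Cone G 𝒜 c e) (p : Pt 𝒜) :
    ∃ (i : ι) (l : 𝒜 1), c l = σ i ∧ p.1 l ≠ 0 := by
  obtain ⟨l0, hl0, h0⟩ := p.2
  obtain ⟨V, V1, V2⟩ := Ideal.image_subset_nonunits_valuationSubring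
    (A := (F.loc p).toSubring) (RingHom.ker (ev p)) (RingHom.ker_ne_top _)
  obtain ⟨i, hi⟩ := M.val (V.comap (e.symm : K →+* Fn 𝒜)) fun r => by
    rw [ValuationSubring.mem_comap]
    exact V1 (by simp)
  obtain ⟨l, hl⟩ := C.lift (hG i).1
  refine ⟨i, l, hl, fun h => ?_⟩
  have h1 : deh l l0 ∈ V := by
    have := hi _ ((C.mem_iff hG hl).2 ⟨l0, rfl⟩)
    rw [ValuationSubring.mem_comap] at this
    simpa using this
  have h2 : deh ⟨l0, hl0⟩ (l : S) ∈ V.nonunits :=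
    V2 ⟨⟨_, deh_mem_loc (l := ⟨l0, hl0⟩) h0 l⟩, by
      have := ev_deh (l := ⟨l0, hl0⟩) h0 l.2
      rw [h, zero_div] at this
      exact this, rfl⟩
  have c0 : c l0 ≠ 0 := fun h' => h0 (by rw [C.inj 1 l0 hl0 h', map_zero])
  have h3 : deh ⟨l0, hl0⟩ (l : S) * deh l l0 = 1 := e.injective (by
    rw [map_mul, C.deh _ l.2, C.deh _ hl0, hl, map_one]
    have := M.ne i
    field_simp)
  rcases V.mem_nonunits_iff_or.1 h2 with h4 | h4
  · exact left_ne_zero_of_mul_eq_one h3 h4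
  · exact h4 (eq_inv_of_mul_eq_one_right h3 ▸ h1)

variable (R a k c e) in
/-- the point `p` of the cone lies over the point `z` of the model -/
def Ov (p : Pt 𝒜) (z : P) : Prop :=
  (F.loc p).map (e : Fn 𝒜 →ₐ[ℂ] K) = R z ∧ ∀ l ∈ 𝒜 1, p.1 l ≠ 0 → Un (R z) (a z ^ k * c l)

theorem Model.exists_ov (M : Model K R a k σ B) (hG : Gen σ B G) (C : Cone G 𝒜 c e) (p : Pt 𝒜) :
    ∃ z, Ov R a k c e p z := by
  obtain ⟨i, l, hl, hp⟩ := M.pt_chart hG C p
  have mem : ∀ b : B i, e.symm b ∈ F.loc p := fun b => by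
    obtain ⟨f, hf⟩ := (C.mem_iff hG hl).1 b.2
    rw [← hf, e.symm_apply_apply]
    exact deh_mem_loc hp f
  obtain ⟨z, hz, hy⟩ := M.pt i
    ((ev p).comp (((e.symm : K →ₐ[ℂ] Fn 𝒜).comp (B i).val).codRestrict (F.loc p) mem))
  have key : ∀ b ∈ B i, Un (R z) b ↔ UnitAt p (e.symm b) := fun b hb =>
    (hy ⟨b, hb⟩).trans (unitAt_iff (x := ⟨_, mem ⟨b, hb⟩⟩)).symm
  have kf : ∀ j, ∀ f ∈ 𝒜 j, p.1 f ≠ 0 → Un (R z) (e (deh l f)) := fun j f hf h => by
    rw [key _ ((C.mem_iff hG hl).2 ⟨f, rfl⟩), e.symm_apply_apply]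
    exact (unitAt_deh hp hf).2 h
  have s0 := M.ne i
  refine ⟨z, le_antisymm ?_ fun r hr => ?_, fun l' hl' h => ?_⟩
  · rintro _ ⟨w, hw, rfl⟩
    obtain ⟨j, f, hf, g, hg, h1, h2⟩ := mem_loc.1 hw
    have h3 := kf j g hg h1
    have h4 : e w = e (deh l f) * (e (deh l g))⁻¹ := by
      rw [C.div j f hf g hg w h2, C.deh l hf, C.deh l hg, hl]
      field_simp
    exact (show e w ∈ R z from h4 ▸ mul_mem (M.le i z hz ((C.mem_iff hG hl).2 ⟨f, rfl⟩)) h3.2.2)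
  · obtain ⟨b, hb, h1, h2⟩ := M.frac i z hz r hr
    refine ⟨(e.symm b)⁻¹ * e.symm (b * r), mul_mem ((key b hb).1 h1).2.2 (mem ⟨_, h2⟩), ?_⟩
    have := h1.1
    change e _ = r
    simp only [map_mul, map_inv₀, e.apply_symm_apply]
    field_simp
  · have h1 := hz.mul (kf 1 l' hl' h)
    rw [C.deh l hl', hl] at h1
    rwa [show a z ^ k * c l' = a z ^ k * σ i * (c l' / σ i ^ 1) by field_simp]

theorem Model.smooth (M : Model K R a k σ B) (hG : Gen σ B G) (C : Cone G 𝒜 c e) (p : Pt 𝒜) :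
    Algebra.FormallySmooth ℂ (F.loc p) := by
  obtain ⟨i, l, hl, hp⟩ := M.pt_chart hG C p
  have h1 : (deh l).range.map (e : Fn 𝒜 →ₐ[ℂ] K) = B i := by
    ext b
    rw [C.mem_iff hG hl]
    exact ⟨fun ⟨_, ⟨f, rfl⟩, h⟩ => ⟨f, h⟩, fun ⟨f, h⟩ => ⟨_, ⟨f, rfl⟩, h⟩⟩
  have := M.sm i
  have : Algebra.FormallySmooth ℂ (deh l).range :=
    .of_equiv ((e.subalgebraMap _).trans (Subalgebra.equivOfEq _ _ h1)).symm
  let := XC.algL hp
  have := XC.isLoc hp
  have : IsScalarTower ℂ (deh l).range (F.loc p) := .of_algebraMap_eq fun _ => rfl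
  have : Algebra.FormallySmooth (deh l).range (F.loc p) := .of_isLocalization (XC.idl hp).primeCompl
  exact .comp ℂ (deh l).range (F.loc p)

theorem Model.cartier (M : Model K R a k σ B) (hG : Gen σ B G) (C : Cone G 𝒜 c e)
    {x : Pt 𝒜 → P} (hx : ∀ p, Ov R a k c e p (x p)) :
    ∃ A : Cartier 𝒜, (∀ p, e (A.eqn p) = a (x p)) ∧ A.Hyperplane k := by
  refine ⟨⟨fun p => e.symm (a (x p)), fun p => ?_⟩, fun p => e.apply_symm_apply _, ?_⟩
  · obtain ⟨i, l, hl, hp⟩ := M.pt_chart hG C p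
    obtain ⟨b, hb, h1, h2⟩ := M.near i (x p) (hl ▸ (hx p).2 l l.2 hp)
    obtain ⟨j, f, hf, rfl⟩ := C.form hG hl (M.ne i) hb
    rw [un_map (hx p).1, unitAt_deh hp hf] at h1
    refine ⟨j + 1, f * l, SetLike.mul_mem_graded hf l.2, by simp [h1, hp], fun q hq => ?_⟩
    rw [map_mul] at hq
    have q1 := right_ne_zero_of_mul hq
    rw [← un_map (hx q).1, map_div₀, e.apply_symm_apply, e.apply_symm_apply]
    exact h2 _ (hl ▸ (hx q).2 l l.2 q1)
      ((un_map (hx q).1).2 ((unitAt_deh q1 hf).2 (left_ne_zero_of_mul hq)))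
  · obtain ⟨i, -⟩ := M.val ⊤ fun _ => trivial
    obtain ⟨l0, h0⟩ := C.lift (hG i).1
    have c0 : c l0 ≠ 0 := h0 ▸ M.ne i
    have l00 : (l0 : S) ≠ 0 := fun h => c0 (by rw [h, map_zero])
    refine ⟨algebraMap S (FractionRing S) l0 / (e.symm (c l0) : Fn 𝒜), fun p l hl hp => ?_⟩
    have h1 := (hx p).2 l hl hp
    have c1 : c l ≠ 0 := right_ne_zero_of_mul h1.1
    refine ⟨e.symm (a (x p) ^ k * c l)⁻¹, ?_, ?_⟩
    · rw [← un_map (hx p).1, e.apply_symm_apply]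
      exact h1.inv
    have h2 : e.symm (a (x p) ^ k * c l)⁻¹ * e.symm (a (x p)) ^ k = (e.symm (c l))⁻¹ := by
      have := left_ne_zero_of_mul h1.1
      rw [← map_pow, ← map_mul, ← map_inv₀]
      congr 1
      field_simp
    have h3 : e.symm (c l) / e.symm (c l0) = ⟨_, div_mem_Fn hl l0.2⟩ := by
      rw [← map_div₀, e.symm_apply_eq]
      exact (C.div 1 l hl l0 l0.2 _ rfl).symm
    have h4 := congrArg Subtype.val h3
    have n0 : ((e.symm (c l0) : Fn 𝒜) : FractionRing S) ≠ 0 := by simpa using c0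
    have n1 : ((e.symm (c l) : Fn 𝒜) : FractionRing S) ≠ 0 := by simpa using c1
    simp only [IntermediateField.coe_div] at h4
    rw [div_eq_div_iff n0 (alg_ne l00)] at h4
    simp only [h2, IntermediateField.coe_inv]
    rw [div_eq_iff n0, inv_mul_eq_div, div_mul_eq_mul_div, eq_div_iff n1, ← h4, mul_comm]

/-- every point of the model specialises to a point below a point of the cone -/
theorem Model.spec (M : Model K R a k σ B) (hG : Gen σ B G) (C : Cone G 𝒜 c e) (z : P) :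
    ∃ p : Pt 𝒜, ∀ z', Ov R a k c e p z' → R z' ≤ R z ∧
      (∀ r ∈ R z, ∃ b ∈ R z', Un (R z) b ∧ b * r ∈ R z') ∧ Un (R z) (a z' / a z) := by
  obtain ⟨i, hi⟩ := M.cover z
  have le := M.le i z hi
  let I : Ideal (B i) :=
    { carrier := {b | ¬ Un (R z) b}
      zero_mem' := fun h => h.1 rfl
      smul_mem' := fun r b hb h => hb (Un.of_mul (v := r) (by simpa [mul_comm] using h)
        (le b.2) (le r.2))
      add_mem' := fun {b b'} hb hb' h => by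
        have h0 := h.1
        rcases M.loc z (b * ((b + b' : B i) : K)⁻¹) (mul_mem (le b.2) h.2.2) with h1 | h1
        · exact hb (h1.of_mul (le b.2) h.2.2)
        · rw [show 1 - b * ((b + b' : B i) : K)⁻¹ = b' * ((b + b' : B i) : K)⁻¹ by
            field_simp; simp] at h1
          exact hb' (h1.of_mul (le b'.2) h.2.2) }
  obtain ⟨y, hy⟩ := exists_hom (M.fg i) I ((Ideal.ne_top_iff_one _).2 fun h => h Un.one)
  obtain ⟨l, hl⟩ := C.lift (hG i).1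
  have l0 : (l : S) ≠ 0 := fun h => M.ne i (by rw [← hl, h, map_zero])
  let ψ : S →ₐ[ℂ] B i := ((e : Fn 𝒜 →ₐ[ℂ] K).comp (deh l)).codRestrict (B i)
    fun f => (C.mem_iff hG hl).2 ⟨f, rfl⟩
  have h1 : y.comp ψ l ≠ 0 := by
    have : ψ l = 1 := Subtype.ext (by simp [ψ, deh_self l0])
    simp [this]
  refine ⟨⟨y.comp ψ, l, l.2, h1⟩, fun z' hz => ?_⟩
  have hi' : Un (R z') (a z' ^ k * σ i) := hl ▸ hz.2 l l.2 h1
  have key : ∀ b ∈ B i, Un (R z') b → Un (R z) b := fun b hb h => by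
    obtain ⟨j, f, hf, rfl⟩ := C.form hG hl (M.ne i) hb
    rw [un_map hz.1, unitAt_deh (p := ⟨y.comp ψ, l, l.2, h1⟩) h1 hf] at h
    by_contra h'
    exact h (hy (ψ f) h')
  refine ⟨fun r hr => ?_, fun r hr => ?_, ?_⟩
  · obtain ⟨b, hb, h2, h3⟩ := M.frac i z' hi' r hr
    rw [show r = b⁻¹ * (b * r) by have := h2.1; field_simp]
    exact mul_mem (key b hb h2).2.2 (le h3)
  · obtain ⟨b, hb, h2, h3⟩ := M.frac i z hi r hr
    exact ⟨b, M.le i z' hi' hb, h2, M.le i z' hi' h3⟩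
  · obtain ⟨b, hb, h2, h3⟩ := M.near i z' hi'
    exact h3 z hi (key b hb h2)

end Pool.Agent.Lib.MP_9ff3e7_ag.Sc
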