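import Pool.Agent.Lib.MP_9ff3e7_ag.Sc.Main
import Pool.Agent.Lib.MP_9ff3e7_ag.Sc.Defs2
import Pool.Agent.Lib.MP_9ff3e7_ag.F.PTop
import Pool.Agent.Lib.MP_9ff3e7_ag.F.SDefs2

/-! Separation of points on schemes. -/

set_option autoImplicit false

namespace Pool.Agent.Lib.MP_9ff3e7_ag.Sc

open AlgebraicGeometry CategoryTheory Set F

theorem loc_le_of_prop {S : Type} [CommRing S] [IsDomain S] [Algebra ℂ S]
    {𝒜 : ℕ → Submodule ℂ S} [GradedAlgebra 𝒜] (hg : Gen1 𝒜) {p q : Pt 𝒜}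
    (h : ∀ a ∈ 𝒜 1, ∀ b ∈ 𝒜 1, p.1 a * q.1 b = p.1 b * q.1 a) {j : ℕ} {f : S} (hf : f ∈ 𝒜 j)
    (hp : p.1 f ≠ 0) : q.1 f ≠ 0 := by
  obtain ⟨l, hl, p0⟩ := p.2
  obtain ⟨l', hl', q0'⟩ := q.2
  have q0 : q.1 l ≠ 0 := fun e => mul_ne_zero p0 q0' (by rw [h l hl l' hl', e, mul_zero])
  obtain ⟨s, s1, s2⟩ := hg
  have e : (ev p).comp ((deh ⟨l, hl⟩).codRestrict _ (deh_mem_loc p0)) =
      (ev q).comp ((deh ⟨l, hl⟩).codRestrict _ (deh_mem_loc q0)) :=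
    AlgHom.ext_of_adjoin_eq_top s2 fun b hb =>
      (ev_deh (l := ⟨l, hl⟩) p0 (s1 b hb)).trans (Eq.trans (by
        rw [pow_one, pow_one, div_eq_div_iff p0 q0, h b (s1 b hb) l hl, mul_comm])
        (ev_deh (l := ⟨l, hl⟩) q0 (s1 b hb)).symm)
  have := (ev_deh (l := ⟨l, hl⟩) p0 hf).symm.trans
    ((DFunLike.congr_fun e f).trans (ev_deh (l := ⟨l, hl⟩) q0 hf))
  intro e0
  rw [e0, zero_div] at this
  exact div_ne_zero hp (pow_ne_zero _ p0) this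

theorem Model.sep {K : Type} [Field K] [Algebra ℂ K] {P ι : Type} {R : P → Subalgebra ℂ K}
    {a : P → K} {k : ℕ} {σ : ι → K} {B : ι → Subalgebra ℂ K} [Finite ι] (M : Model K R a k σ B)
    {n : ℕ} (hn : Algebra.trdeg ℂ K = n) {m : ℕ} (hm : n + 2 ≤ m) {z w : P}
    (hz : ∀ z', R z' ≤ R z → Un (R z) (a z' / a z) → z' = z)
    (hw : ∀ z', R z' ≤ R w → Un (R w) (a z' / a w) → z' = w) (hne : z ≠ w) :
    SepIn n R (fun x => a x ^ m) z w := by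
  obtain ⟨N, G, M', hG⟩ := M.exists_gen
  obtain ⟨i, -⟩ := M.val ⊤ fun _ => trivial
  obtain ⟨S, _, _, _, 𝒜, _, c, e, C⟩ := exists_cone G (hG i).1 (M'.ne i) ((hG i).2 ▸ M'.field i)
  choose x hx using M'.exists_ov hG C
  obtain ⟨A, A1, A2⟩ := M'.cartier hG C hx
  choose p hp using M'.spec hG C
  have ez : x (p z) = z := hz _ (hp z _ (hx _)).1 (hp z _ (hx _)).2.2
  have ew : x (p w) = w := hw _ (hp w _ (hx _)).1 (hp w _ (hx _)).2.2
  have oz := hx (p z)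
  have ow := hx (p w)
  rw [ez] at oz
  rw [ew] at ow
  obtain ⟨ω, h1, h2, h3⟩ : A.SepAt n m (p z) (p w) := fujita_pts 𝒜 C.gen n (e.trdeg_eq.trans hn)
    (M'.smooth hG C) A _ M'.kpos A2 m hm (p z) (p w) (by
      by_contra hc
      push Not at hc
      have le : R z ≤ R w := by
        rw [← oz.1, ← ow.1]
        refine Subalgebra.map_mono fun y hy => ?_
        obtain ⟨j, f, hf, g, hg, y1, y2⟩ := mem_loc.1 hy
        exact mem_loc.2 ⟨j, f, hf, g, hg, loc_le_of_prop C.gen hc hg y1, y2⟩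
      obtain ⟨i, l, hl, l1⟩ := M'.pt_chart hG C (p z)
      obtain ⟨b, -, b1, b2⟩ := M'.near i z (hl ▸ oz.2 l l.2 l1)
      exact hne (hw z le (b2 w (hl ▸ ow.2 l l.2 (loc_le_of_prop C.gen hc l.2 l1)) (b1.mono le))))
  obtain ⟨Φ, hΦ⟩ := exists_trans e n
  refine ⟨Φ ω, fun y => ?_, ?_, fun h => h3 ?_⟩
  · obtain ⟨a1, -, a3⟩ := hp y _ (hx _)
    have := (hΦ _ _ _).1.1 (h1 (p y))
    rw [(hx _).1, map_pow, A1] at this
    exact RegIn.loc this a1 (div_pow (a _) (a y) m ▸ a3.pow m)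
  · have := (hΦ _ _ _).2.1 h2
    rwa [oz.1, map_pow, A1, ez] at this
  · refine (hΦ _ _ _).2.2 ?_
    rwa [ow.1, map_pow, A1, ew]

theorem Cst.sep {X : Scheme.{0}} [IsIntegral X] {s : X ⟶ Spec (CommRingCat.of ℂ)}
    [Algebra ℂ X.functionField] {A : X.Modules} (h : Cst s) (n : ℕ)
    [SmoothOfRelativeDimension n s] [IsProper s] (hA : LineBundle A) (ha : Ample A) {m : ℕ}
    (hm : n + 2 ≤ m) {x y : X} (hx : IsClosed ({x} : Set X)) (hy : IsClosed ({y} : Set X))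
    (hne : x ≠ y) : AdjSep A n m x y := by
  have := SmoothOfRelativeDimension.smooth n s
  obtain ⟨r, H⟩ := exists_ratio hA
  choose U u hu using hA
  obtain ⟨k, N, σ, B, M, hc⟩ := H.model h ha hu
  obtain ⟨ω, h1, h2, h3⟩ := M.sep (h.trdeg n) hm (hc x hx) (hc y hy) hne
  exact ⟨_, H.adj h hu h1, ⟨U x, u x, (hu x).2, (hu x).1, h2⟩, U y, u y, (hu y).2, (hu y).1, h3⟩

end Pool.Agent.Lib.MP_9ff3e7_ag.Sc
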