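import Pool.Agent.Lib.MP_9ff3e7_ag.Sc.Defs
import Pool.Agent.Lib.MP_9ff3e7_ag.Sc.Model

/-! Constants, local rings and centres of valuations inside the function field. -/

set_option autoImplicit false

namespace Pool.Agent.Lib.MP_9ff3e7_ag.Sc

open AlgebraicGeometry CategoryTheory Limits Set F

noncomputable section

section Units

variable {K : Type} [Field K] [Algebra ℂ K] {R : Subalgebra ℂ K} {u v : K}

theorem Un.one : Un R 1 := ⟨one_ne_zero, one_mem _, by simp⟩

theorem Un.mul (h : Un R u) (h' : Un R v) : Un R (u * v) :=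
  ⟨mul_ne_zero h.1 h'.1, mul_mem h.2.1 h'.2.1, by rw [mul_inv]; exact mul_mem h.2.2 h'.2.2⟩

theorem Un.inv (h : Un R u) : Un R u⁻¹ := ⟨inv_ne_zero h.1, h.2.2, by simpa using h.2.1⟩

theorem Un.div (h : Un R u) (h' : Un R v) : Un R (u / v) := by
  rw [div_eq_mul_inv]; exact h.mul h'.inv

theorem Un.pow (h : Un R u) (n : ℕ) : Un R (u ^ n) :=
  ⟨pow_ne_zero _ h.1, pow_mem h.2.1 _, by rw [← inv_pow]; exact pow_mem h.2.2 _⟩

theorem Un.of_mul (h : Un R (u * v)) (hu : u ∈ R) (hv : v ∈ R) : Un R u := by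
  have h1 : u ≠ 0 := left_ne_zero_of_mul h.1
  have h2 : v ≠ 0 := right_ne_zero_of_mul h.1
  refine ⟨h1, hu, ?_⟩
  rw [show u⁻¹ = v * (u * v)⁻¹ by field_simp]
  exact mul_mem hv h.2.2

theorem Un.of_pow {n : ℕ} (h : Un R (u ^ n)) (hn : 0 < n) (hu : u ∈ R) : Un R u := by
  obtain ⟨m, rfl⟩ := Nat.exists_eq_succ_of_ne_zero hn.ne'
  rw [pow_succ'] at h
  exact h.of_mul hu (pow_mem hu _)

theorem Un.mono {R' : Subalgebra ℂ K} (h : Un R u) (hR : R ≤ R') : Un R' u :=
  ⟨h.1, hR h.2.1, hR h.2.2⟩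

end Units

variable {X : Scheme.{0}} [IsIntegral X]

/-- the constants inside the function field are those given by `s` -/
def Cst (s : X ⟶ Spec (CommRingCat.of ℂ)) [Algebra ℂ X.functionField] : Prop :=
  Spec.map (CommRingCat.ofHom (algebraMap ℂ X.functionField)) =
    X.fromSpecStalk (genericPoint X) ≫ s

theorem spec_const (s : X ⟶ Spec (CommRingCat.of ℂ)) :
    Spec.map ((Scheme.ΓSpecIso (CommRingCat.of ℂ)).inv ≫ s.appTop ≫
      X.presheaf.germ ⊤ (genericPoint X) trivial) = X.fromSpecStalk (genericPoint X) ≫ s := by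
  rw [Spec.map_comp, Spec.map_comp, ← Scheme.fromSpecStalk_toSpecΓ, Category.assoc,
    Category.assoc, ← Scheme.toSpecΓ_naturality_assoc, ← SpecMap_ΓSpecIso_hom, ← Spec.map_comp]
  simp

theorem cst_const (s : X ⟶ Spec (CommRingCat.of ℂ)) : @Cst _ _ s (constAlgebra s) :=
  spec_const s

theorem gen_mem (W : X.Opens) [h : Nonempty W] : genericPoint X ∈ W :=
  ((genericPoint_spec X).mem_open_set_iff W.isOpen).2 (by simpa using h)

instance ne_inf (U V : X.Opens) [Nonempty U] [Nonempty V] : Nonempty (U ⊓ V : X.Opens) :=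
  ⟨⟨_, gen_mem U, gen_mem V⟩⟩

theorem germ_res {U W : X.Opens} [Nonempty U] [Nonempty W] (h : W ≤ U) (t : Γ(X, U)) :
    X.germToFunctionField W (X.presheaf.map (homOfLE h).op t) = X.germToFunctionField U t :=
  X.presheaf.germ_res_apply _ _ _ _

/-- `r U s` is the rational function `s₀ / s` for a fixed rational section `s₀` -/
def Ratio (A : X.Modules) (r : ∀ U : X.Opens, Γ(A, U) → X.functionField) : Prop :=
  (∀ U s, Frame A U s → Nonempty U → r U s ≠ 0) ∧
  ∀ U s V t, Frame A U s → Frame A V t → ∀ (W : X.Opens) [Nonempty W] (hU : W ≤ U) (hV : W ≤ V)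
    (g : Γ(X, W)), res A hU s = g • res A hV t → r V t = X.germToFunctionField W g * r U s

variable {s : X ⟶ Spec (CommRingCat.of ℂ)} [Algebra ℂ X.functionField]

theorem Cst.germ (h : Cst s) (U : X.Opens) [Nonempty U] (c : ℂ) :
    X.germToFunctionField U (((Scheme.ΓSpecIso (.of ℂ)).inv ≫ s.appLE ⊤ U le_top).hom c) =
      algebraMap ℂ X.functionField c := by
  have h1 := Spec.map_injective ((spec_const s).trans h.symm)
  have h2 : (Scheme.ΓSpecIso (.of ℂ)).inv ≫ s.appLE ⊤ U le_top ≫ X.germToFunctionField U =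
      CommRingCat.ofHom (algebraMap ℂ X.functionField) := by
    rw [← h1]
    congr 1
    exact (Category.assoc _ _ _).trans (congrArg _ (X.presheaf.germ_res _ _ _))
  exact DFunLike.congr_fun (congrArg CommRingCat.Hom.hom h2) c

theorem germ_mem {U : X.Opens} [Nonempty U] {x : X} (hx : x ∈ U) (t : Γ(X, U)) :
    X.germToFunctionField U t ∈ locAt x :=
  Algebra.subset_adjoin ⟨_, X.algebraMap_germ_eq_germToFunctionField hx t⟩

theorem Cst.mem_locAt (h : Cst s) {x : X} {z : X.functionField} :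
    z ∈ locAt x ↔ ∃ t : X.presheaf.stalk x, algebraMap _ X.functionField t = z := by
  refine ⟨fun hz => ?_, fun hz => Algebra.subset_adjoin hz⟩
  induction hz using Algebra.adjoin_induction with
  | mem z hz => exact hz
  | algebraMap c =>
    have : Nonempty (⊤ : X.Opens) := ⟨⟨x, trivial⟩⟩
    exact ⟨_, (X.algebraMap_germ_eq_germToFunctionField (U := ⊤) (x := x) trivial _).trans
      (h.germ ⊤ c)⟩
  | add a b _ _ ha hb =>
    obtain ⟨a, rfl⟩ := ha
    obtain ⟨b, rfl⟩ := hb
    exact ⟨a + b, map_add _ _ _⟩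
  | mul a b _ _ ha hb =>
    obtain ⟨a, rfl⟩ := ha
    obtain ⟨b, rfl⟩ := hb
    exact ⟨a * b, map_mul _ _ _⟩

theorem Cst.un_iff (h : Cst s) {x : X} (t : X.presheaf.stalk x) :
    Un (locAt x) (algebraMap _ X.functionField t) ↔ IsUnit t := by
  have inj := IsFractionRing.injective (X.presheaf.stalk x) X.functionField
  constructor
  · rintro ⟨h0, -, h2⟩
    obtain ⟨t', e⟩ := h.mem_locAt.1 h2
    refine IsUnit.of_mul_eq_one t' (inj ?_)
    rw [map_mul, e, mul_inv_cancel₀ h0, map_one]
  · rintro ⟨u, rfl⟩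
    have e : algebraMap _ X.functionField (u : X.presheaf.stalk x) *
        algebraMap _ X.functionField (↑u⁻¹ : X.presheaf.stalk x) = 1 := by
      rw [← map_mul, Units.mul_inv, map_one]
    exact ⟨left_ne_zero_of_mul_eq_one e, h.mem_locAt.2 ⟨_, rfl⟩,
      h.mem_locAt.2 ⟨_, eq_inv_of_mul_eq_one_right e⟩⟩

theorem Cst.un_germ (h : Cst s) {U : X.Opens} [Nonempty U] {x : X} (hx : x ∈ U) (t : Γ(X, U)) :
    Un (locAt x) (X.germToFunctionField U t) ↔ x ∈ X.basicOpen t := by
  rw [← X.algebraMap_germ_eq_germToFunctionField hx t, h.un_iff, X.mem_basicOpen t x hx]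

theorem Cst.loc (h : Cst s) (x : X) (r : X.functionField) (hr : r ∈ locAt x) :
    Un (locAt x) r ∨ Un (locAt x) (1 - r) := by
  obtain ⟨t, rfl⟩ := h.mem_locAt.1 hr
  rw [← map_one (algebraMap (X.presheaf.stalk x) X.functionField), ← map_sub, h.un_iff, h.un_iff]
  exact IsLocalRing.isUnit_or_isUnit_one_sub_self t

/-- every valuation ring of the function field has a centre -/
theorem Cst.center (h : Cst s) [hs : UniversallyClosed s] (V : ValuationSubring X.functionField)
    (hV : ∀ c, algebraMap ℂ X.functionField c ∈ V) : ∃ x : X, ∀ a ∈ locAt x, a ∈ V := by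
  rw [UniversallyClosed.eq_valuativeCriterion] at hs
  have w : X.fromSpecStalk (genericPoint X) ≫ s =
      Spec.map (CommRingCat.ofHom (algebraMap V X.functionField)) ≫
        Spec.map (CommRingCat.ofHom ((algebraMap ℂ X.functionField).codRestrict V hV)) := by
    rw [← h, ← Spec.map_comp]
    rfl
  obtain ⟨l, h1, -⟩ := (hs.1 { R := V, K := X.functionField, commSq := ⟨w⟩, .. }).exists_lift
  dsimp only at h1
  have h2 : Scheme.stalkClosedPointTo l ≫ CommRingCat.ofHom (algebraMap V X.functionField) =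
      X.presheaf.stalkSpecializes ((genericPoint_spec X).specializes trivial) := by
    apply Spec.map_injective
    rw [← cancel_mono (X.fromSpecStalk _), Spec.map_comp, Category.assoc,
      Scheme.Spec_stalkClosedPointTo_fromSpecStalk, h1,
      Scheme.SpecMap_stalkSpecializes_fromSpecStalk]
  refine ⟨l (IsLocalRing.closedPoint V), fun a ha => ?_⟩
  obtain ⟨a, rfl⟩ := h.mem_locAt.1 ha
  have h3 := DFunLike.congr_fun (congrArg CommRingCat.Hom.hom h2) a
  exact (show (((Scheme.stalkClosedPointTo l).hom a : V) : X.functionField) = _ from h3) ▸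
    ((Scheme.stalkClosedPointTo l).hom a).2

end

end Pool.Agent.Lib.MP_9ff3e7_ag.Sc
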